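import Pool.Agent.Lib.P41.Fac

set_option autoImplicit false

namespace Pool.Agent.Lib.P41

open Sum

/-- Five tangles on four legs. -/
def bb : Fin 5 → List (Fac (Fin 4)) :=
  ![[.A 0 3, .A 1 2], [.A 0 2, .A 1 3], [.A 0 1, .A 2 3], [.T 0 1 2 3], [.T 0 1 3 2]]

def inn (b : List (Fac (Fin 4))) : List (Fac (Loc 3)) := b.map (Fac.map inl)

def locR (b : List (Fac (Fin 4))) : List (Fac (Loc 3)) :=
  b.map (Fac.map ![inr 0, inr 1, inl 2, inl 3]) ++
    [.V (inl 0) (inr 0) (inr 2), .V (inl 1) (inr 2) (inr 1)]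

def relOf (G : List (Fac (Loc 3))) (c0 c1 c2 c3 c4 : ℤ) : Rel 3 :=
  [(-1, G), (c0, inn (bb 0)), (c1, inn (bb 1)), (c2, inn (bb 2)), (c3, inn (bb 3)),
    (c4, inn (bb 4))]

lemma chkR3 : chk (relOf (locR (bb 3)) 0 0 (-32) 32 8) = true := by decide +kernel

end Pool.Agent.Lib.P41
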