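import Pool.Agent.Lib.P41.Fac

set_option autoImplicit false

namespace Pool.Agent.Lib.P41

open Sum

def relB (G : List (Fac (Loc 3))) (c0 c1 c2 c3 c4 : ℤ) : Rel 3 :=
  [(-1, G), (c0, [.A (inl 0) (inl 3), .A (inl 1) (inl 2)]),
    (c1, [.A (inl 0) (inl 2), .A (inl 1) (inl 3)]), (c2, [.A (inl 0) (inl 1), .A (inl 2) (inl 3)]),
    (c3, [.T (inl 0) (inl 1) (inl 2) (inl 3)]), (c4, [.T (inl 0) (inl 1) (inl 3) (inl 2)])]

lemma chkR0 : chk (relB [.A (inr 0) (inl 3), .A (inr 1) (inl 2), .V (inl 0) (inr 0) (inr 2),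
    .V (inl 1) (inr 2) (inr 1)] (-16) (-16) (-16) (-16) (-8)) = true := by decide +kernel

lemma chkR2 : chk (relB [.A (inr 0) (inr 1), .A (inl 2) (inl 3), .V (inl 0) (inr 0) (inr 2),
    .V (inl 1) (inr 2) (inr 1)] 0 0 48 0 0) = true := by decide +kernel

lemma chkO4 : chk (relB [.T (inl 1) (inl 2) (inl 0) (inl 3)] (-2) (-2) (-2) (-1) (-1)) = true := by
  decide +kernel

lemma chkO3 : chk (relB [.T (inl 1) (inl 2) (inl 3) (inl 0)] 0 0 0 1 0) = true := by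
  decide +kernel

lemma chkC : chk (relB [.V (inl 2) (inl 1) (inr 0), .V (inl 0) (inl 3) (inr 0)]
    (-4) (-4) (-4) (-4) (-2)) = true := by decide +kernel

end Pool.Agent.Lib.P41
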