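import Pool.Agent.Lib.MP_daa8b9_co.Merge

set_option autoImplicit false

namespace Pool.Agent.Lib.P41

open Pool.Agent.Lib.MP_daa8b9_co

variable {U U' K : Type}

/-- Kronecker delta. -/
def dd [DecidableEq K] (a b : K) : ℤ := if a = b then 1 else 0

lemma dd_comm [DecidableEq K] (a b : K) : dd a b = dd b a := by
  unfold dd; simp only [eq_comm]

open Classical in
/-- Indicator of a proposition. -/
noncomputable def ind (P : Prop) : ℤ := if P then 1 else 0

lemma ind_pos {P : Prop} (h : P) : ind P = 1 := if_pos h

lemma ind_neg {P : Prop} (h : ¬ P) : ind P = 0 := if_neg h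

lemma ind_congr {P Q : Prop} (h : P ↔ Q) : ind P = ind Q := by rw [propext h]

lemma ind_and (P Q : Prop) : ind (P ∧ Q) = ind P * ind Q := by
  by_cases hP : P <;> by_cases hQ : Q <;> simp [ind, hP, hQ]

lemma ind_eq [DecidableEq K] (a b : K) : ind (a = b) = dd a b := by
  by_cases h : a = b <;> simp [ind, dd, h]

lemma ind_forall {ι : Type} [Fintype ι] (P : ι → Prop) : ind (∀ i, P i) = ∏ i, ind (P i) := by
  by_cases h : ∀ i, P i
  · rw [ind_pos h, Finset.prod_eq_one (fun i _ => ind_pos (h i))]
  · rw [ind_neg h]
    obtain ⟨i, hi⟩ := not_forall.1 h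
    exact (Finset.prod_eq_zero (Finset.mem_univ i) (ind_neg hi)).symm

lemma sum_ind {Y : Type} [Fintype Y] (P : Y → Prop) :
    ∑ y, ind (P y) = (Nat.card {y // P y} : ℤ) := by
  classical
  rw [Nat.card_eq_fintype_card, Fintype.card_subtype, ← Finset.sum_boole]
  refine Finset.sum_congr rfl (fun y _ => ?_)
  by_cases h : P y <;> simp [ind, h]

lemma sum_inv [Fintype U] [DecidableEq U] [Fintype K] (r : U → U → Prop) :
    ∑ y : U → K, ind (∀ a b, r a b → y a = y b) = (Fintype.card K : ℤ) ^ classes r := by
  classical
  rw [sum_ind]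
  have e : {y : U → K // ∀ a b, r a b → y a = y b} ≃ (Quot r → K) :=
    { toFun := fun y => Quot.lift y.1 y.2
      invFun := fun g => ⟨fun a => g (Quot.mk r a), fun a b h => congrArg g (Quot.sound h)⟩
      left_inv := fun y => rfl
      right_inv := fun g => by funext q; induction q using Quot.ind; rfl }
  rw [Nat.card_congr e, Nat.card_fun, Nat.card_eq_fintype_card]
  simp [classes]

def dl [DecidableEq K] (D : List (U × U)) (y : U → K) : ℤ :=
  (D.map (fun p => dd (y p.1) (y p.2))).prod

lemma dl_append [DecidableEq K] (D D' : List (U × U)) (y : U → K) :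
    dl (D ++ D') y = dl D y * dl D' y := by simp [dl]

lemma dl_eq [DecidableEq K] (D : List (U × U)) (y : U → K) :
    dl D y = ind (∀ a b, (a, b) ∈ D → y a = y b) := by
  induction D with
  | nil => simp [dl, ind]
  | cons p D ih =>
    have : dl (p :: D) y = dd (y p.1) (y p.2) * dl D y := by simp [dl]
    rw [this, ih, dd]
    by_cases h1 : y p.1 = y p.2
    · rw [if_pos h1, one_mul]
      refine ind_congr ⟨fun h a b hab => ?_, fun h a b hab => h a b (List.mem_cons_of_mem _ hab)⟩
      rcases List.mem_cons.1 hab with h2 | h2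
      · rw [← h2] at h1; exact h1
      · exact h a b h2
    · rw [if_neg h1, zero_mul, ind_neg (fun h => h1 (h p.1 p.2 (by simp)))]

lemma sum_dl [Fintype U] [DecidableEq U] (N : ℕ) (l : U → ℕ) (hl : Function.Injective l)
    (D : List (U × U)) :
    ∑ y : U → Fin N, dl D y ≡ (-1) ^ Fintype.card U * sgn l D [ZMOD ((N : ℤ) + 1)] := by
  simp only [dl_eq]
  rw [sum_inv (fun a b => (a, b) ∈ D), Fintype.card_fin,
    classes_eq_mergeL _ l hl D (fun a b h => Or.inl h) (fun a b h => h)]
  have h := pow_card_mergeL D l
  rw [Finset.card_image_of_injective _ hl, Finset.card_univ] at h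
  rw [← h]
  apply Int.ModEq.pow
  exact (Int.modEq_iff_dvd.2 ⟨-1, by ring⟩)

/-- A formal signed sum of lists of identifications. -/
abbrev Fm (U : Type) := List (ℤ × List (U × U))

def sem [DecidableEq K] (F : Fm U) (y : U → K) : ℤ := (F.map (fun t => t.1 * dl t.2 y)).sum

def ev : (U → ℕ) → List (Fm U) → ((U → ℕ) → ℤ) → ℤ
  | l, [], k => k l
  | l, F :: Fs, k => (F.map (fun t => t.1 * (sgn l t.2 * ev (mergeL l t.2) Fs k))).sum

lemma ev_append (Fs Gs : List (Fm U)) (k : (U → ℕ) → ℤ) : ∀ l,
    ev l (Fs ++ Gs) k = ev l Fs (fun l' => ev l' Gs k) := by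
  induction Fs with
  | nil => intro l; rfl
  | cons F Fs ih => intro l; simp only [List.cons_append, ev, ih]

lemma sum_ev [Fintype U] [DecidableEq U] (N : ℕ) (l : U → ℕ) (hl : Function.Injective l)
    (Fs : List (Fm U)) : ∀ D : List (U × U),
    ∑ y : U → Fin N, dl D y * (Fs.map (fun F => sem F y)).prod ≡
      (-1) ^ Fintype.card U * (sgn l D * ev (mergeL l D) Fs (fun _ => 1))
        [ZMOD ((N : ℤ) + 1)] := by
  induction Fs with
  | nil => intro D; simpa [ev] using sum_dl N l hl D
  | cons F Fs ih =>
    intro D
    simp only [List.map_cons, List.prod_cons, ev]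
    induction F with
    | nil => simp [sem]
    | cons t F ihF =>
      have h := (ih (D ++ t.2)).mul_left t.1
      rw [sgn_append, mergeL_append, Finset.mul_sum] at h
      have h2 := h.add ihF
      rw [← Finset.sum_add_distrib] at h2
      convert h2 using 1
      · refine Finset.sum_congr rfl (fun y _ => ?_)
        simp only [sem, List.map_cons, List.sum_cons, dl_append]
        ring
      · simp only [List.map_cons, List.sum_cons]
        ring

lemma ev_lin {ι : Type} (Fs : List (Fm U)) (c : ι → ℤ) (k : ι → (U → ℕ) → ℤ) (S : List ι) :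
    ∀ l, (S.map (fun i => c i * ev l Fs (k i))).sum =
      ev l Fs (fun l' => (S.map (fun i => c i * k i l')).sum) := by
  induction Fs with
  | nil => intro l; rfl
  | cons F Fs ih =>
    intro l
    simp only [ev, ← ih]
    induction F with
    | nil => simp
    | cons t F ihF =>
      simp only [List.map_cons, List.sum_cons]
      rw [← ihF, ← List.sum_map_mul_left, ← List.sum_map_mul_left, ← List.sum_map_add]
      congr 1
      refine List.map_congr_left (fun i _ => ?_)
      ring

def occ (D : List (U × U)) : Multiset U := (D.map (fun p => ({p.1, p.2} : Multiset U))).sum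

def Inv (l : U → ℕ) (S : Multiset U) : Prop :=
  ∀ v, (S.map l).count v = 0 ∨ (S.map l).count v = 2

lemma count_merge (l : U → ℕ) (p : U × U) (h : l p.1 ≠ l p.2) (S : Multiset U) (v : ℕ) :
    (S.map (merge l p)).count v =
      if v = l p.2 then 0 else if v = l p.1 then (S.map l).count (l p.1) + (S.map l).count (l p.2)
        else (S.map l).count v := by
  induction S using Multiset.induction_on with
  | empty => simp
  | cons z S ih =>
    have e : merge l p z = if l z = l p.2 then l p.1 else l z := rfl
    rw [Multiset.map_cons, Multiset.count_cons, ih, e, Multiset.map_cons, Multiset.count_cons,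
      Multiset.count_cons, Multiset.count_cons]
    split_ifs <;> omega

lemma Inv.merge {l : U → ℕ} {p : U × U} {S : Multiset U} (h : Inv l ({p.1, p.2} + S)) :
    Inv (merge l p) S := by
  intro v
  have h' : ∀ v, (S.map l).count v + (if v = l p.1 then 1 else 0) + (if v = l p.2 then 1 else 0) = 0
      ∨ (S.map l).count v + (if v = l p.1 then 1 else 0) + (if v = l p.2 then 1 else 0) = 2 := by
    intro v
    have := h v
    rw [Multiset.insert_eq_cons, Multiset.cons_add, Multiset.singleton_add,
      Multiset.map_cons, Multiset.map_cons, Multiset.count_cons, Multiset.count_cons] at this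
    omega
  by_cases hp : l p.1 = l p.2
  · have : MP_daa8b9_co.merge l p = l := by
      funext z
      unfold MP_daa8b9_co.merge
      split_ifs <;> omega
    rw [this]
    have := h' v
    rw [hp] at this
    by_cases e : v = l p.2
    · rw [if_pos e] at this; omega
    · rw [if_neg e] at this; omega
  · rw [count_merge l p hp]
    have h1 := h' (l p.1)
    have h2 := h' (l p.2)
    have h3 := h' v
    rw [if_pos rfl, if_neg hp] at h1
    rw [if_pos rfl, if_neg (Ne.symm hp)] at h2
    by_cases e2 : v = l p.2
    · rw [if_pos e2]; exact Or.inl rfl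
    · rw [if_neg e2] at h3 ⊢
      split_ifs at h3 ⊢ <;> omega

lemma Inv.mergeL (D : List (U × U)) : ∀ {l : U → ℕ} {S : Multiset U}, Inv l (occ D + S) →
    Inv (mergeL l D) S := by
  induction D with
  | nil => intro l S h; simpa [occ, MP_daa8b9_co.mergeL] using h
  | cons p D ih =>
    intro l S h
    rw [mergeL_cons]
    apply ih
    apply Inv.merge
    simpa only [occ, List.map_cons, List.sum_cons, add_assoc] using h

lemma ev_zero {A : Type} (fm : A → Fm U) (oc : A → Multiset U)
    (h : ∀ a, ∀ t ∈ fm a, occ t.2 = oc a) (S : Multiset U) (k : (U → ℕ) → ℤ)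
    (hk : ∀ l, Inv l S → k l = 0) (R : List A) :
    ∀ l, Inv l ((R.map oc).sum + S) → ev l (R.map fm) k = 0 := by
  induction R with
  | nil => intro l hl; exact hk l (by simpa using hl)
  | cons a R ih =>
    intro l hl
    simp only [List.map_cons, ev]
    refine List.sum_eq_zero (fun z hz => ?_)
    obtain ⟨t, ht, rfl⟩ := List.mem_map.1 hz
    rw [ih _ (Inv.mergeL t.2 (by
      simpa only [h a t ht, List.map_cons, List.sum_cons, add_assoc] using hl))]
    simp

def mapD (s : U' → U) (D : List (U' × U')) : List (U × U) := D.map (Prod.map s s)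

def mapF (s : U' → U) (F : Fm U') : Fm U := F.map (fun t => (t.1, mapD s t.2))

lemma sgn_map (s : U' → U) (D : List (U' × U')) : ∀ l : U → ℕ,
    sgn l (mapD s D) = sgn (l ∘ s) D ∧ mergeL l (mapD s D) ∘ s = mergeL (l ∘ s) D := by
  induction D with
  | nil => intro l; exact ⟨rfl, rfl⟩
  | cons p D ih =>
    intro l
    obtain ⟨h1, h2⟩ := ih (merge l (Prod.map s s p))
    have e : merge l (Prod.map s s p) ∘ s = merge (l ∘ s) p := rfl
    rw [e] at h1 h2
    exact ⟨by simp only [mapD, List.map_cons, sgn] at h1 ⊢; rw [h1]; rfl, h2⟩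

lemma ev_map (s : U' → U) (Fs : List (Fm U')) : ∀ l : U → ℕ,
    ev l (Fs.map (mapF s)) (fun _ => 1) = ev (l ∘ s) Fs (fun _ => 1) := by
  induction Fs with
  | nil => intro l; rfl
  | cons F Fs ih =>
    intro l
    simp only [List.map_cons, ev, mapF, List.map_map]
    congr 1
    refine List.map_congr_left (fun t _ => ?_)
    simp only [Function.comp_apply]
    rw [ih, (sgn_map s t.2 l).1, (sgn_map s t.2 l).2]

lemma ev_congr (Fs : List (Fm U)) : ∀ {l l' : U → ℕ}, SameKer (fun _ => True) l l' →
    ev l Fs (fun _ => 1) = ev l' Fs (fun _ => 1) := by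
  induction Fs with
  | nil => intro l l' _; rfl
  | cons F Fs ih =>
    intro l l' h
    simp only [ev]
    congr 1
    refine List.map_congr_left (fun t _ => ?_)
    obtain ⟨h1, h2⟩ := SameKer.mergeL t.2 h (fun _ _ => ⟨trivial, trivial⟩)
    rw [h2, ih h1]

/-! Fast kernel evaluation. -/

def force {α : Type} (n : ℕ) (k : ℕ → α) : α := Nat.rec (k 0) (fun m _ => k (Nat.succ m)) n

lemma force_eq {α : Type} (n : ℕ) (k : ℕ → α) : force n k = k n := by
  cases n <;> rfl

def run : List (U × U) → (U → ℕ) → ((U → ℕ) → ℤ) → ℤ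
  | [], l, k => k l
  | p :: D, l, k => force (l p.1) (fun x => force (l p.2) (fun y =>
      cond (Nat.beq x y) (run D l k)
        (Int.neg (run D (fun z => force (l z) (fun v => cond (Nat.beq v y) x v)) k))))

lemma run_eq (D : List (U × U)) (k : (U → ℕ) → ℤ) : ∀ l,
    run D l k = sgn l D * k (mergeL l D) := by
  induction D with
  | nil => intro l; simp [run, sgn, mergeL]
  | cons p D ih =>
    intro l
    simp only [run, force_eq, ih, sgn, mergeL_cons]
    by_cases h : l p.1 = l p.2
    · have : merge l p = l := by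
        funext z
        unfold merge
        split_ifs <;> omega
      rw [this, if_pos h, h, Nat.beq_refl]
      simp
    · have h2 : Nat.beq (l p.1) (l p.2) = false := by
        rw [Bool.eq_false_iff]; exact fun h' => h (Nat.eq_of_beq_eq_true h')
      have : (fun z => cond (Nat.beq (l z) (l p.2)) (l p.1) (l z)) = merge l p := by
        funext z
        unfold merge
        by_cases h3 : l z = l p.2
        · rw [if_pos h3, h3, Nat.beq_refl]; rfl
        · have h4 : Nat.beq (l z) (l p.2) = false := by
            rw [Bool.eq_false_iff]; exact fun h' => h3 (Nat.eq_of_beq_eq_true h')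
          rw [if_neg h3, h4]; rfl
      rw [this, if_neg h, h2]
      show -(_ : ℤ) = _
      ring

def evK : List (Fm U) → (U → ℕ) → ℤ
  | [], _ => 1
  | F :: Fs, l => F.foldr (fun t acc => Int.add (Int.mul t.1 (run t.2 l (evK Fs))) acc) 0

lemma evK_eq (Fs : List (Fm U)) : ∀ l, evK Fs l = ev l Fs (fun _ => 1) := by
  induction Fs with
  | nil => intro l; rfl
  | cons F Fs ih =>
    intro l
    simp only [evK, ev]
    induction F with
    | nil => rfl
    | cons t F ihF =>
      simp only [List.foldr_cons, List.map_cons, List.sum_cons]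
      rw [ihF, run_eq, ih]
      rfl

end Pool.Agent.Lib.P41
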