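import Pool.Agent.Lib.P41.Core

set_option autoImplicit false

namespace Pool.Agent.Lib.P41

open Pool.Agent.Lib.MP_daa8b9_co

variable {α β K : Type}

/-- Factors of a network: trivalent vertex, antisymmetriser, four-cycle. -/
inductive Fac (α : Type)
  | V : α → α → α → Fac α
  | A : α → α → Fac α
  | T : α → α → α → α → Fac α

def Fac.fm : Fac α → Fm (α × Bool)
  | V a b c => [
      (1, [((a, true), (b, false)), ((b, true), (c, false)), ((c, true), (a, false))]),
      (-1, [((a, true), (b, false)), ((b, true), (c, true)), ((c, false), (a, false))]),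
      (-1, [((a, true), (b, true)), ((b, false), (c, false)), ((c, true), (a, false))]),
      (1, [((a, true), (b, true)), ((b, false), (c, true)), ((c, false), (a, false))]),
      (-1, [((a, false), (b, false)), ((b, true), (c, false)), ((c, true), (a, true))]),
      (1, [((a, false), (b, false)), ((b, true), (c, true)), ((c, false), (a, true))]),
      (1, [((a, false), (b, true)), ((b, false), (c, false)), ((c, true), (a, true))]),
      (-1, [((a, false), (b, true)), ((b, false), (c, true)), ((c, false), (a, true))])]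
  | A a b => [(1, [((a, false), (b, false)), ((a, true), (b, true))]),
      (-1, [((a, false), (b, true)), ((a, true), (b, false))])]
  | T a b c d => [
      (1, [((a, true), (b, false)), ((b, true), (c, false)), ((c, true), (d, false)), ((d, true), (a, false))]),
      (-1, [((a, true), (b, false)), ((b, true), (c, false)), ((c, true), (d, true)), ((d, false), (a, false))]),
      (-1, [((a, true), (b, false)), ((b, true), (c, true)), ((c, false), (d, false)), ((d, true), (a, false))]),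
      (1, [((a, true), (b, false)), ((b, true), (c, true)), ((c, false), (d, true)), ((d, false), (a, false))]),
      (-1, [((a, true), (b, true)), ((b, false), (c, false)), ((c, true), (d, false)), ((d, true), (a, false))]),
      (1, [((a, true), (b, true)), ((b, false), (c, false)), ((c, true), (d, true)), ((d, false), (a, false))]),
      (1, [((a, true), (b, true)), ((b, false), (c, true)), ((c, false), (d, false)), ((d, true), (a, false))]),
      (-1, [((a, true), (b, true)), ((b, false), (c, true)), ((c, false), (d, true)), ((d, false), (a, false))]),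
      (-1, [((a, false), (b, false)), ((b, true), (c, false)), ((c, true), (d, false)), ((d, true), (a, true))]),
      (1, [((a, false), (b, false)), ((b, true), (c, false)), ((c, true), (d, true)), ((d, false), (a, true))]),
      (1, [((a, false), (b, false)), ((b, true), (c, true)), ((c, false), (d, false)), ((d, true), (a, true))]),
      (-1, [((a, false), (b, false)), ((b, true), (c, true)), ((c, false), (d, true)), ((d, false), (a, true))]),
      (1, [((a, false), (b, true)), ((b, false), (c, false)), ((c, true), (d, false)), ((d, true), (a, true))]),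
      (-1, [((a, false), (b, true)), ((b, false), (c, false)), ((c, true), (d, true)), ((d, false), (a, true))]),
      (-1, [((a, false), (b, true)), ((b, false), (c, true)), ((c, false), (d, false)), ((d, true), (a, true))]),
      (1, [((a, false), (b, true)), ((b, false), (c, true)), ((c, false), (d, true)), ((d, false), (a, true))])]

def Fac.oc : Fac α → Multiset α
  | V a b c => {a, b, c}
  | A a b => {a, b}
  | T a b c d => {a, b, c, d}

def Fac.map (s : α → β) : Fac α → Fac β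
  | V a b c => V (s a) (s b) (s c)
  | A a b => A (s a) (s b)
  | T a b c d => T (s a) (s b) (s c) (s d)

def dbl (M : Multiset α) : Multiset (α × Bool) :=
  M.map (fun a => (a, false)) + M.map (fun a => (a, true))

lemma dbl_add (M M' : Multiset α) : dbl (M + M') = dbl M + dbl M' := by
  simp only [dbl, Multiset.map_add]; abel

lemma dbl_map (s : α → β) (M : Multiset α) : dbl (M.map s) = (dbl M).map (Prod.map s id) := by
  simp [dbl]

lemma Fac.occ_fm (F : Fac α) : ∀ t ∈ F.fm, occ t.2 = dbl F.oc := by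
  cases F <;>
    simp only [Fac.fm, Fac.oc, List.forall_mem_cons, List.not_mem_nil, false_imp_iff, imp_true_iff,
      and_true, occ, dbl, List.map_cons, List.map_nil, List.sum_cons, List.sum_nil,
      Multiset.insert_eq_cons, ← Multiset.singleton_add, Multiset.map_add,
      Multiset.map_singleton, add_zero] <;>
    (repeat' constructor) <;> abel

lemma Fac.fm_map (s : α → β) (F : Fac α) : (F.map s).fm = mapF (Prod.map s id) F.fm := by
  cases F <;> rfl

def st (x : α → K × K) : α × Bool → K := fun p => cond p.2 (x p.1).2 (x p.1).1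

def stE : (α → K × K) ≃ (α × Bool → K) where
  toFun := st
  invFun := fun y a => (y (a, false), y (a, true))
  left_inv := fun x => rfl
  right_inv := fun y => by funext p; obtain ⟨a, b⟩ := p; cases b <;> rfl

variable [DecidableEq K]

def Fac.sem (x : α → K × K) (F : Fac α) : ℤ := P41.sem F.fm (st x)

def tau (a b c : K × K) : ℤ := dd a.2 b.1 * dd b.2 c.1 * dd c.2 a.1

def fv (a b c : K × K) : ℤ :=
  tau a b c - tau a b c.swap - tau a b.swap c + tau a b.swap c.swap
    - tau a.swap b c + tau a.swap b c.swap + tau a.swap b.swap c - tau a.swap b.swap c.swap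

def fa (a b : K × K) : ℤ := dd a.1 b.1 * dd a.2 b.2 - dd a.1 b.2 * dd a.2 b.1

lemma sem_V (x : α → K × K) (a b c : α) : (Fac.V a b c).sem x = fv (x a) (x b) (x c) := by
  simp only [Fac.sem, Fac.fm, sem, dl, st, List.map_cons, List.map_nil, List.sum_cons,
    List.sum_nil, List.prod_cons, List.prod_nil, cond_true, cond_false, fv, tau, Prod.fst_swap,
    Prod.snd_swap]
  ring

lemma sem_A (x : α → K × K) (a b : α) : (Fac.A a b).sem x = fa (x a) (x b) := by
  simp only [Fac.sem, Fac.fm, sem, dl, st, List.map_cons, List.map_nil, List.sum_cons,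
    List.sum_nil, List.prod_cons, List.prod_nil, cond_true, cond_false, fa]
  ring

lemma sem_map (s : α → β) (x : β → K × K) (F : Fac α) : (F.map s).sem x = F.sem (x ∘ s) := by
  cases F <;> rfl

lemma fv_rot (a b c : K × K) : fv a b c = fv b c a := by
  simp only [fv, tau]; ring

lemma fv_flip (a b c : K × K) : fv b a c = - fv a b c := by
  obtain ⟨a1, a2⟩ := a
  obtain ⟨b1, b2⟩ := b
  obtain ⟨c1, c2⟩ := c
  simp only [fv, tau, Prod.swap_prod_mk, dd_comm b1 a1, dd_comm b1 a2, dd_comm b2 a1,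
    dd_comm b2 a2, dd_comm c1 a1, dd_comm c1 a2, dd_comm c2 a1, dd_comm c2 a2, dd_comm c1 b1,
    dd_comm c1 b2, dd_comm c2 b1, dd_comm c2 b2]
  ring

lemma fv_self (a c : K × K) : fv a a c = 0 := by
  have := fv_flip a a c
  omega

lemma fv_swap (a b c : K × K) : fv a.swap b c = - fv a b c := by
  simp only [fv, Prod.swap_swap]; ring

lemma fa_comm (a b : K × K) : fa a b = fa b a := by
  simp only [fa, dd_comm b.1, dd_comm b.2]; ring

lemma fa_swap (a b : K × K) : fa a.swap b = - fa a b := by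
  simp only [fa, Prod.fst_swap, Prod.snd_swap]; ring

def val (L : List (Fac α)) (x : α → K × K) : ℤ := (L.map (Fac.sem x)).prod

def oc (L : List (Fac α)) : Multiset α := (L.map Fac.oc).sum

/-- The value of a closed network with `N` colours. -/
def Z [Fintype α] [DecidableEq α] (N : ℕ) (L : List (Fac α)) : ℤ :=
  ∑ x : α → Fin N × Fin N, val L x

lemma Z_ev [Fintype α] [DecidableEq α] (N : ℕ) (l : α × Bool → ℕ) (hl : Function.Injective l)
    (L : List (Fac α)) :
    Z N L ≡ ev l (L.map Fac.fm) (fun _ => 1) [ZMOD ((N : ℤ) + 1)] := by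
  have h := sum_ev N l hl (L.map Fac.fm) []
  rw [← stE.sum_comp, Fintype.card_prod, Fintype.card_bool, mul_comm _ 2, pow_mul] at h
  simp only [dl, List.map_nil, List.prod_nil, one_mul, sgn, List.map_map, neg_one_sq,
    one_pow] at h
  exact h

/-- Every variable occurs twice or not at all. -/
def Cl [DecidableEq α] (M : Multiset α) : Prop := ∀ v, M.count v = 0 ∨ M.count v = 2

lemma Cl.inv [DecidableEq α] {M : Multiset α} (h : Cl M) (l : α × Bool → ℕ)
    (hl : Function.Injective l) : Inv l (dbl M) := by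
  intro v
  by_cases hv : v ∈ (dbl M).map l
  · obtain ⟨⟨a, b⟩, -, rfl⟩ := Multiset.mem_map.1 hv
    rw [Multiset.count_map_eq_count' _ _ hl, dbl, Multiset.count_add]
    have h1 : ∀ c : Bool, (M.map (fun a => (a, c))).count (a, c) = M.count a := fun c =>
      Multiset.count_map_eq_count' (fun a => (a, c)) _ (fun _ _ h => (Prod.mk.inj h).1) a
    have h2 : ∀ c : Bool, (M.map (fun a => (a, !c))).count (a, c) = 0 := fun c =>
      Multiset.count_eq_zero.2 (by simp)
    cases b
    · rw [h1, show (M.map (fun a => (a, true))).count (a, false) = 0 from h2 false]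
      exact h a
    · rw [h1, show (M.map (fun a => (a, false))).count (a, true) = 0 from h2 true, zero_add]
      exact h a
  · exact Or.inl (Multiset.count_eq_zero.2 hv)

/-! Canonical labellings of eight slots. -/

def canon (us : List ℕ) : List ℕ := us.map (fun v => us.idxOf v)

def allRG : ℕ → List ℕ → List (List ℕ)
  | 0, pre => [pre]
  | k + 1, pre => (List.range (pre.length + 1)).flatMap
      (fun v => if v = pre.length ∨ v ∈ pre then allRG k (pre ++ [v]) else [])

lemma canon_mem (suf : List ℕ) : ∀ pre, canon (pre ++ suf) ∈ allRG suf.length (canon pre) := by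
  induction suf with
  | nil => intro pre; simp [allRG]
  | cons u suf ih =>
    intro pre
    have h := ih (pre ++ [u])
    have e : canon (pre ++ [u]) = canon pre ++ [pre.idxOf u] := by
      simp only [canon, List.map_append, List.map_cons, List.map_nil]
      congr 1
      · exact List.map_congr_left (fun v hv => List.idxOf_append_of_mem hv)
      · by_cases hu : u ∈ pre
        · rw [List.idxOf_append_of_mem hu]
        · rw [List.idxOf_append_of_notMem hu, List.idxOf_of_notMem hu]; simp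
    rw [e, List.append_assoc] at h
    have hl : (canon pre).length = pre.length := by simp [canon]
    simp only [List.length_cons, allRG, List.mem_flatMap, List.mem_range, hl]
    refine ⟨pre.idxOf u, Nat.lt_succ_of_le List.idxOf_le_length, ?_⟩
    rw [if_pos]
    · exact h
    · by_cases hu : u ∈ pre
      · exact Or.inr (List.mem_map.2 ⟨u, hu, rfl⟩)
      · exact Or.inl (List.idxOf_of_notMem hu)

def P105 : List (List ℕ) := [
  [0, 0, 2, 2, 4, 4, 6, 6], [0, 0, 2, 2, 4, 5, 4, 5], [0, 0, 2, 2, 4, 5, 5, 4], [0, 0, 2, 3, 2, 3, 6, 6],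
  [0, 0, 2, 3, 2, 5, 3, 5], [0, 0, 2, 3, 2, 5, 5, 3], [0, 0, 2, 3, 3, 2, 6, 6], [0, 0, 2, 3, 4, 2, 3, 4],
  [0, 0, 2, 3, 4, 2, 4, 3], [0, 0, 2, 3, 3, 5, 2, 5], [0, 0, 2, 3, 4, 3, 2, 4], [0, 0, 2, 3, 4, 4, 2, 3],
  [0, 0, 2, 3, 3, 5, 5, 2], [0, 0, 2, 3, 4, 3, 4, 2], [0, 0, 2, 3, 4, 4, 3, 2], [0, 1, 0, 1, 4, 4, 6, 6],
  [0, 1, 0, 1, 4, 5, 4, 5], [0, 1, 0, 1, 4, 5, 5, 4], [0, 1, 0, 3, 1, 3, 6, 6], [0, 1, 0, 3, 1, 5, 3, 5],
  [0, 1, 0, 3, 1, 5, 5, 3], [0, 1, 0, 3, 3, 1, 6, 6], [0, 1, 0, 3, 4, 1, 3, 4], [0, 1, 0, 3, 4, 1, 4, 3],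
  [0, 1, 0, 3, 3, 5, 1, 5], [0, 1, 0, 3, 4, 3, 1, 4], [0, 1, 0, 3, 4, 4, 1, 3], [0, 1, 0, 3, 3, 5, 5, 1],
  [0, 1, 0, 3, 4, 3, 4, 1], [0, 1, 0, 3, 4, 4, 3, 1], [0, 1, 1, 0, 4, 4, 6, 6], [0, 1, 1, 0, 4, 5, 4, 5],
  [0, 1, 1, 0, 4, 5, 5, 4], [0, 1, 2, 0, 1, 2, 6, 6], [0, 1, 2, 0, 1, 5, 2, 5], [0, 1, 2, 0, 1, 5, 5, 2],
  [0, 1, 2, 0, 2, 1, 6, 6], [0, 1, 2, 0, 4, 1, 2, 4], [0, 1, 2, 0, 4, 1, 4, 2], [0, 1, 2, 0, 2, 5, 1, 5],
  [0, 1, 2, 0, 4, 2, 1, 4], [0, 1, 2, 0, 4, 4, 1, 2], [0, 1, 2, 0, 2, 5, 5, 1], [0, 1, 2, 0, 4, 2, 4, 1],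
  [0, 1, 2, 0, 4, 4, 2, 1], [0, 1, 1, 3, 0, 3, 6, 6], [0, 1, 1, 3, 0, 5, 3, 5], [0, 1, 1, 3, 0, 5, 5, 3],
  [0, 1, 2, 1, 0, 2, 6, 6], [0, 1, 2, 1, 0, 5, 2, 5], [0, 1, 2, 1, 0, 5, 5, 2], [0, 1, 2, 2, 0, 1, 6, 6],
  [0, 1, 2, 3, 0, 1, 2, 3], [0, 1, 2, 3, 0, 1, 3, 2], [0, 1, 2, 2, 0, 5, 1, 5], [0, 1, 2, 3, 0, 2, 1, 3],
  [0, 1, 2, 3, 0, 3, 1, 2], [0, 1, 2, 2, 0, 5, 5, 1], [0, 1, 2, 3, 0, 2, 3, 1], [0, 1, 2, 3, 0, 3, 2, 1],
  [0, 1, 1, 3, 3, 0, 6, 6], [0, 1, 1, 3, 4, 0, 3, 4], [0, 1, 1, 3, 4, 0, 4, 3], [0, 1, 2, 1, 2, 0, 6, 6],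
  [0, 1, 2, 1, 4, 0, 2, 4], [0, 1, 2, 1, 4, 0, 4, 2], [0, 1, 2, 2, 1, 0, 6, 6], [0, 1, 2, 3, 1, 0, 2, 3],
  [0, 1, 2, 3, 1, 0, 3, 2], [0, 1, 2, 2, 4, 0, 1, 4], [0, 1, 2, 3, 2, 0, 1, 3], [0, 1, 2, 3, 3, 0, 1, 2],
  [0, 1, 2, 2, 4, 0, 4, 1], [0, 1, 2, 3, 2, 0, 3, 1], [0, 1, 2, 3, 3, 0, 2, 1], [0, 1, 1, 3, 3, 5, 0, 5],
  [0, 1, 1, 3, 4, 3, 0, 4], [0, 1, 1, 3, 4, 4, 0, 3], [0, 1, 2, 1, 2, 5, 0, 5], [0, 1, 2, 1, 4, 2, 0, 4],
  [0, 1, 2, 1, 4, 4, 0, 2], [0, 1, 2, 2, 1, 5, 0, 5], [0, 1, 2, 3, 1, 2, 0, 3], [0, 1, 2, 3, 1, 3, 0, 2],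
  [0, 1, 2, 2, 4, 1, 0, 4], [0, 1, 2, 3, 2, 1, 0, 3], [0, 1, 2, 3, 3, 1, 0, 2], [0, 1, 2, 2, 4, 4, 0, 1],
  [0, 1, 2, 3, 2, 3, 0, 1], [0, 1, 2, 3, 3, 2, 0, 1], [0, 1, 1, 3, 3, 5, 5, 0], [0, 1, 1, 3, 4, 3, 4, 0],
  [0, 1, 1, 3, 4, 4, 3, 0], [0, 1, 2, 1, 2, 5, 5, 0], [0, 1, 2, 1, 4, 2, 4, 0], [0, 1, 2, 1, 4, 4, 2, 0],
  [0, 1, 2, 2, 1, 5, 5, 0], [0, 1, 2, 3, 1, 2, 3, 0], [0, 1, 2, 3, 1, 3, 2, 0], [0, 1, 2, 2, 4, 1, 4, 0],
  [0, 1, 2, 3, 2, 1, 3, 0], [0, 1, 2, 3, 3, 1, 2, 0], [0, 1, 2, 2, 4, 4, 1, 0], [0, 1, 2, 3, 2, 3, 1, 0],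
  [0, 1, 2, 3, 3, 2, 1, 0]]

lemma P105_spec : (allRG 8 []).all
    (fun a => !(a.all (fun v => a.count v == 2)) || decide (a ∈ P105)) = true := by
  decide +kernel

lemma canon_P105 (us : List ℕ) (h8 : us.length = 8) (h : ∀ v ∈ us, us.count v = 2) :
    canon us ∈ P105 := by
  have h1 := canon_mem us []
  rw [List.nil_append, h8] at h1
  have h2 := List.all_eq_true.1 P105_spec _ h1
  simp only [Bool.or_eq_true, Bool.not_eq_true', decide_eq_true_eq] at h2
  refine h2.resolve_left ?_
  rw [Bool.not_eq_false, List.all_eq_true]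
  intro w hw
  obtain ⟨v, hv, rfl⟩ := List.mem_map.1 hw
  rw [beq_iff_eq, ← h v hv, canon, List.count_eq_countP, List.count_eq_countP, List.countP_map]
  refine List.countP_congr (fun z hz => ?_)
  simp only [Function.comp_apply, beq_iff_eq]
  exact List.idxOf_inj hz

abbrev Loc (m : ℕ) := Fin 4 ⊕ Fin m

def labOf {m : ℕ} (a : List ℕ) (p : Loc m × Bool) : ℕ :=
  Sum.rec (fun i => a.getD (cond p.2 (Nat.succ (Nat.mul 2 i.val)) (Nat.mul 2 i.val)) 0)
    (fun j => cond p.2 (Nat.add 9 (Nat.mul 2 j.val)) (Nat.add 8 (Nat.mul 2 j.val))) p.1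

def S0 (m : ℕ) : Multiset (Loc m) :=
  {Sum.inl 0, Sum.inl 1, Sum.inl 2, Sum.inl 3} +
    (Finset.univ.val.map Sum.inr + Finset.univ.val.map Sum.inr)

lemma exists_lab {m : ℕ} (l : Loc m × Bool → ℕ) (h : Inv l (dbl (S0 m))) :
    ∃ a ∈ P105, SameKer (fun _ => True) l (labOf a) := by
  set us : List ℕ := [l (.inl 0, false), l (.inl 0, true), l (.inl 1, false), l (.inl 1, true),
    l (.inl 2, false), l (.inl 2, true), l (.inl 3, false), l (.inl 3, true)] with hus
  set W0 : Multiset (Loc m × Bool) := dbl (Finset.univ.val.map Sum.inr) with hW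
  have hc : ∀ v, us.count v + 2 * (W0.map l).count v = 0 ∨
      us.count v + 2 * (W0.map l).count v = 2 := by
    intro v
    have h1 := h v
    rw [S0, dbl_add, dbl_add, ← hW, Multiset.map_add, Multiset.map_add, Multiset.count_add,
      Multiset.count_add] at h1
    have h2 : (Multiset.map l (dbl {Sum.inl 0, Sum.inl 1, Sum.inl 2, Sum.inl 3})).count v =
        us.count v := by
      simp only [hus, dbl, Multiset.insert_eq_cons, Multiset.map_cons, Multiset.map_singleton,
        Multiset.map_add, Multiset.count_add, Multiset.count_cons, Multiset.count_singleton,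
        List.count_cons, List.count_nil, beq_iff_eq, eq_comm (a := v)]
      omega
    omega
  have hm : ∀ (i : Fin 4) (b : Bool), l (.inl i, b) ∈ us ∧
      labOf (canon us) ((.inl i : Loc m), b) = us.idxOf (l (.inl i, b)) := by
    intro i b
    fin_cases i <;> cases b <;> exact ⟨by simp [hus], rfl⟩
  have hW1 : ∀ (j : Fin m) (b : Bool), ((.inr j : Loc m), b) ∈ W0 := by
    intro j b
    cases b <;> simp [hW, dbl]
  have hnd : (W0.map l).Nodup := Multiset.nodup_iff_count_le_one.2 (fun v => by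
    have := hc v; omega)
  have hne : ∀ (i : Fin 4) (b : Bool) (j : Fin m) (c : Bool), l (.inl i, b) ≠ l (.inr j, c) ∧
      labOf (canon us) ((.inl i : Loc m), b) ≠ labOf (canon us) ((.inr j : Loc m), c) := by
    intro i b j c
    constructor
    · intro e
      have h1 := List.count_pos_iff.2 (hm i b).1
      have h2 := Multiset.count_pos.2 (Multiset.mem_map_of_mem l (hW1 j c))
      have h3 := hc (l (.inl i, b))
      rw [← e] at h2
      omega
    · have h1 := List.idxOf_lt_length_iff.2 (hm i b).1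
      rw [(hm i b).2]
      have h2 : us.length = 8 := rfl
      cases c <;> simp only [labOf, cond_true, cond_false, Nat.add_eq, Nat.mul_eq] <;> omega
  refine ⟨canon us, canon_P105 us rfl (fun v hv => ?_), ?_⟩
  · have h1 := List.count_pos_iff.2 hv
    have := hc v
    omega
  · rintro ⟨i | i, b⟩ ⟨j | j, c⟩ - -
    · rw [(hm i b).2, (hm j c).2, List.idxOf_inj (hm i b).1]
    · exact iff_of_false (hne i b j c).1 (hne i b j c).2
    · exact iff_of_false (hne j c i b).1.symm (hne j c i b).2.symm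
    · constructor
      · intro e
        rw [Multiset.inj_on_of_nodup_map hnd _ (hW1 i b) _ (hW1 j c) e]
      · intro e
        have : i = j ∧ b = c := by
          cases b <;> cases c <;>
            simp only [labOf, cond_true, cond_false, Nat.add_eq, Nat.mul_eq] at e <;>
            first | exact ⟨Fin.ext (by omega), rfl⟩ | omega
        rw [this.1, this.2]

abbrev Rel (m : ℕ) := List (ℤ × List (Fac (Loc m)))

def chk {m : ℕ} (S : Rel m) : Bool :=
  P105.all (fun a => decide ((S.map (fun r => r.1 * evK (r.2.map Fac.fm) (labOf a))).sum = 0))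

/-- A relation that vanishes against all pairings may be used inside any closed network. -/
theorem key [Fintype α] [DecidableEq α] {m : ℕ} (S : Rel m) (hS : chk S = true)
    (R : List (Fac α)) (s : Loc m → α) (hc : Cl (oc R + (S0 m).map s)) (N : ℕ) :
    (S.map (fun r => r.1 * Z N (R ++ r.2.map (Fac.map s)))).sum ≡ 0 [ZMOD ((N : ℤ) + 1)] := by
  obtain ⟨l, hl⟩ := exists_injective_nat (α × Bool)
  have h1 : (S.map (fun r => r.1 * Z N (R ++ r.2.map (Fac.map s)))).sum ≡
      (S.map (fun r => r.1 * ev l (R.map Fac.fm)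
        (fun l' => ev (l' ∘ Prod.map s id) (r.2.map Fac.fm) (fun _ => 1)))).sum
        [ZMOD ((N : ℤ) + 1)] := by
    clear hS
    induction S with
    | nil => rfl
    | cons r S ih =>
      simp only [List.map_cons, List.sum_cons]
      refine Int.ModEq.add (Int.ModEq.mul_left _ ?_) ih
      have h := Z_ev N l hl (R ++ r.2.map (Fac.map s))
      rw [List.map_append, ev_append, List.map_map] at h
      have e : r.2.map (Fac.fm ∘ Fac.map s) = (r.2.map Fac.fm).map (mapF (Prod.map s id)) := by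
        rw [List.map_map]
        exact List.map_congr_left (fun F _ => Fac.fm_map s F)
      simpa only [e, ev_map] using h
  rw [ev_lin, ev_zero Fac.fm (fun F => dbl F.oc) Fac.occ_fm (dbl ((S0 m).map s))] at h1
  · exact h1
  · intro l' hl'
    have h2 : Inv (l' ∘ Prod.map s id) (dbl (S0 m)) := by
      intro v
      have := hl' v
      rwa [dbl_map, Multiset.map_map] at this
    obtain ⟨a, ha, hk⟩ := exists_lab _ h2
    have h3 := List.all_eq_true.1 hS a ha
    simp only [evK_eq, decide_eq_true_eq] at h3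
    simpa only [ev_congr _ hk] using h3
  · have h2 := hc.inv l hl
    have e : ∀ R : List (Fac α), dbl (oc R) = (R.map (fun F => dbl F.oc)).sum := by
      intro R
      induction R with
      | nil => rfl
      | cons F R ih => simp only [oc, List.map_cons, List.sum_cons, dbl_add] at ih ⊢; rw [ih]
    rwa [dbl_add, e] at h2

end Pool.Agent.Lib.P41
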