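import Pool.Agent.Lib.P41.Planar

set_option autoImplicit false

namespace Pool.Agent.Lib.P41

open Pool.Agent.Lib.MP_daa8b9_co Function Sum

variable {E V G L L' J : Type}

/-- Tensor of an open map with legs `L`. -/
def ten [Fintype E] [DecidableEq E] [Fintype V] [Fintype G] (φ : V × Fin 3 ≃ (E × Bool) ⊕ L)
    (ι : G → G) (g : G → G → G → ℤ) (z : L → G) : ℤ :=
  ∑ x : E → G, vw φ g (Sum.elim (dv ι x) z)

/-- Add two vertices. -/
def glue (φ : V × Fin 3 ≃ (E × Bool) ⊕ L) (γ : L ⊕ (Bool × Fin 3) ≃ (J × Bool) ⊕ L') :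
    (V ⊕ Bool) × Fin 3 ≃ ((E ⊕ J) × Bool) ⊕ L' :=
  (Equiv.sumProdDistrib V Bool (Fin 3)).trans <| (φ.sumCongr (Equiv.refl _)).trans <|
    (Equiv.sumAssoc _ _ _).trans <| ((Equiv.refl _).sumCongr γ).trans <|
    (Equiv.sumAssoc _ _ _).symm.trans <|
    ((Equiv.sumProdDistrib E J Bool).symm.sumCongr (Equiv.refl _))

lemma ten_glue [Fintype E] [DecidableEq E] [Fintype V] [Fintype G] [Fintype J] [DecidableEq J]
    (φ : V × Fin 3 ≃ (E × Bool) ⊕ L) (γ : L ⊕ (Bool × Fin 3) ≃ (J × Bool) ⊕ L')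
    (ι : G → G) (g : G → G → G → ℤ) (z : L' → G) :
    ten (glue φ γ) ι g z = ∑ t : J → G,
      ten φ ι g (fun l => Sum.elim (dv ι t) z (γ (inl l))) *
        vw (Equiv.refl _) g (fun p : Bool × Fin 3 => Sum.elim (dv ι t) z (γ (inr p))) := by
  simp only [ten, Finset.sum_mul]
  rw [Finset.sum_comm, ← Fintype.sum_prod_type',
    ← (Equiv.sumArrowEquivProdArrow E J G).sum_comp]
  refine Finset.sum_congr rfl (fun x _ => ?_)
  have e : ∀ q : (J × Bool) ⊕ L', Sum.elim (dv ι x) z
      (((Equiv.sumProdDistrib E J Bool).symm.sumCongr (Equiv.refl L'))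
        ((Equiv.sumAssoc (E × Bool) (J × Bool) L').symm (inr q))) =
      Sum.elim (dv ι (x ∘ inr)) z q := by
    rintro (q | q) <;> rfl
  have e1 : ∀ p : V × Fin 3, Sum.elim (dv ι x) z (glue φ γ (inl p.1, p.2)) =
      Sum.elim (dv ι (x ∘ inl)) (fun l => Sum.elim (dv ι (x ∘ inr)) z (γ (inl l))) (φ p) := by
    intro p
    simp only [glue, Equiv.trans_apply, Equiv.sumProdDistrib_apply_left, Equiv.sumCongr_apply,
      Sum.map_inl]
    rcases φ p with q | q
    · rfl
    · exact e _
  simp only [vw, Fintype.prod_sum_type]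
  congr 1
  · exact Finset.prod_congr rfl (fun v _ => by
      rw [e1 (v, 0), e1 (v, 1), e1 (v, 2)]; rfl)
  · exact Finset.prod_congr rfl (fun v _ => by
      congr 1 <;> exact e _)

abbrev Ten (G : Type) := G → G → G → G → ℤ

section
variable [Fintype G] (ι : G → G) (g : G → G → G → ℤ)

def base : Ten G := fun a b c d => ∑ e, g (ι e) d a * g e b c

def rung (Y : Ten G) : Ten G := fun a b c d =>
  ∑ p, ∑ q, ∑ e, Y p q c d * (g (ι q) (ι e) b * g (ι p) a e)

def clo (Y : Ten G) : ℤ :=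
  ∑ a, ∑ b, ∑ c, ∑ d, ∑ e, Y a b c d * (g (ι a) (ι d) (ι e) * g (ι c) (ι b) e)

def tw : List Bool → Ten G
  | [] => base ι g
  | true :: w => rung ι g (tw w)
  | false :: w => fun a b c d => tw w d a b c

end

lemma sum_cons [Fintype G] {n : ℕ} (F : (Fin (n + 1) → G) → ℤ) :
    ∑ x, F x = ∑ a, ∑ y : Fin n → G, F (Fin.cons a y) := by
  rw [← (Fin.consEquiv (fun _ => G)).sum_comp, Fintype.sum_prod_type]
  rfl

noncomputable def gH : Empty ⊕ (Bool × Fin 3) ≃ (Fin 1 × Bool) ⊕ Fin 4 :=
  Equiv.ofBijective (Sum.elim Empty.elim (fun p => cond p.1 (![inl (0, true), inr 3, inr 0] p.2)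
    (![inl (0, false), inr 1, inr 2] p.2))) (by decide)

noncomputable def gR : Fin 4 ⊕ (Bool × Fin 3) ≃ (Fin 3 × Bool) ⊕ Fin 4 :=
  Equiv.ofBijective (Sum.elim ![inl (0, false), inl (1, false), inr 2, inr 3]
    (fun p => cond p.1 (![inl (1, true), inl (2, true), inr 1] p.2)
      (![inl (0, true), inr 0, inl (2, false)] p.2))) (by decide)

noncomputable def gC : Fin 4 ⊕ (Bool × Fin 3) ≃ (Fin 5 × Bool) ⊕ Empty :=
  Equiv.ofBijective (Sum.elim ![inl (0, false), inl (1, false), inl (2, false), inl (3, false)]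
    (fun p => cond p.1 (![inl (0, true), inl (3, true), inl (4, true)] p.2)
      (![inl (2, true), inl (1, true), inl (4, false)] p.2))) (by decide)

lemma real_open (w : List Bool) : ∃ (E V : Type) (_ : Fintype E) (_ : DecidableEq E)
    (_ : Fintype V) (φ : V × Fin 3 ≃ (E × Bool) ⊕ Fin 4), Fintype.card E = 3 * w.count true + 1 ∧
    ∀ (G : Type) [Fintype G] (ι : G → G) (g : G → G → G → ℤ) (z : Fin 4 → G),
      ten φ ι g z = tw ι g w (z 0) (z 1) (z 2) (z 3) := by
  induction w with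
  | nil =>
    refine ⟨Empty ⊕ Fin 1, Empty ⊕ Bool, inferInstance, inferInstance, inferInstance,
      glue (Equiv.equivOfIsEmpty _ _) gH, by simp, fun G _ ι g z => ?_⟩
    rw [ten_glue]
    simp only [sum_cons, Fintype.sum_unique, ten, vw, Fintype.prod_bool, Fintype.prod_empty,
      one_mul]
    rfl
  | cons b w ih =>
    obtain ⟨E, V, _, _, _, φ, hE, h⟩ := ih
    cases b
    · refine ⟨E, V, inferInstance, inferInstance, inferInstance,
        φ.trans ((Equiv.refl _).sumCongr (finRotate 4).symm), by simpa using hE,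
        fun G _ ι g z => ?_⟩
      refine Eq.trans ?_ (h G ι g (z ∘ (finRotate 4).symm))
      refine Finset.sum_congr rfl (fun x _ => ?_)
      have : ∀ q, Sum.elim (dv ι x) z (((Equiv.refl _).sumCongr (finRotate 4).symm) q) =
          Sum.elim (dv ι x) (z ∘ (finRotate 4).symm) q := by rintro (q | q) <;> rfl
      simp only [vw, Equiv.trans_apply, this]
    · refine ⟨E ⊕ Fin 3, V ⊕ Bool, inferInstance, inferInstance, inferInstance, glue φ gR,
        by simp [hE]; omega, fun G _ ι g z => ?_⟩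
      rw [ten_glue]
      simp only [sum_cons, Fintype.sum_unique, h, vw, Fintype.prod_bool]
      rfl

lemma real_closed (w : List Bool) : ∃ (E V : Type) (_ : Fintype E) (_ : DecidableEq E)
    (_ : Fintype V) (φ : V × Fin 3 ≃ E × Bool), Fintype.card E = 3 * w.count true + 6 ∧
    ∀ (G : Type) [Fintype G] (ι : G → G) (g : G → G → G → ℤ),
      ZM φ ι g = clo ι g (tw ι g w) := by
  obtain ⟨E, V, _, _, _, φ, hE, h⟩ := real_open w
  refine ⟨E ⊕ Fin 5, V ⊕ Bool, inferInstance, inferInstance, inferInstance,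
    (glue φ gC).trans (Equiv.sumEmpty _ _), by simp [hE], fun G _ ι g => ?_⟩
  have h1 := ten_glue φ gC ι g Empty.elim
  simp only [sum_cons, Fintype.sum_unique, h, vw, Fintype.prod_bool] at h1
  refine Eq.trans (Finset.sum_congr rfl (fun x _ => ?_)) h1
  have : ∀ q, dv ι x (Equiv.sumEmpty _ Empty q) = Sum.elim (dv ι x) Empty.elim q := by
    rintro (q | q)
    · rfl
    · exact q.elim
  simp only [vw, Equiv.trans_apply, this]

lemma rung_lin [Fintype G] (ι : G → G) (g : G → G → G → ℤ) {I : Type} [Fintype I] (v : I → ℤ)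
    (b : I → Ten G) : rung ι g (fun p q r s => ∑ i, v i * b i p q r s) =
      fun p q r s => ∑ i, v i * rung ι g (b i) p q r s := by
  funext p q r s
  simp only [rung, Finset.sum_mul, Finset.mul_sum, mul_assoc]
  symm
  rw [Finset.sum_comm]
  refine Finset.sum_congr rfl (fun _ _ => ?_)
  rw [Finset.sum_comm]
  exact Finset.sum_congr rfl (fun _ _ => Finset.sum_comm)

lemma clo_lin [Fintype G] (ι : G → G) (g : G → G → G → ℤ) {I : Type} [Fintype I] (v : I → ℤ)
    (b : I → Ten G) : clo ι g (fun p q r s => ∑ i, v i * b i p q r s) =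
      ∑ i, v i * clo ι g (b i) := by
  simp only [clo, Finset.sum_mul, Finset.mul_sum, mul_assoc]
  symm
  rw [Finset.sum_comm]
  refine Finset.sum_congr rfl (fun _ _ => ?_)
  rw [Finset.sum_comm]
  refine Finset.sum_congr rfl (fun _ _ => ?_)
  rw [Finset.sum_comm]
  refine Finset.sum_congr rfl (fun _ _ => ?_)
  rw [Finset.sum_comm]
  exact Finset.sum_congr rfl (fun _ _ => Finset.sum_comm)

open Matrix in
/-- Coordinates along a word. -/
def vec {n : ℕ} (R O : Matrix (Fin n) (Fin n) ℤ) (v : Fin n → ℤ) : List Bool → Fin n → ℤ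
  | [] => v
  | true :: w => R *ᵥ vec R O v w
  | false :: w => O *ᵥ vec R O v w

lemma clo_tw [Fintype G] (ι : G → G) (g : G → G → G → ℤ) {n : ℕ} (b : Fin n → Ten G)
    (R O : Matrix (Fin n) (Fin n) ℤ) (v c : Fin n → ℤ)
    (hb : ∀ p q r s, base ι g p q r s = ∑ i, v i * b i p q r s)
    (hR : ∀ i p q r s, rung ι g (b i) p q r s = ∑ j, R j i * b j p q r s)
    (hO : ∀ i p q r s, b i s p q r = ∑ j, O j i * b j p q r s)
    (hc : ∀ i, clo ι g (b i) = c i) (w : List Bool) :
    clo ι g (tw ι g w) = vec R O v w ⬝ᵥ c := by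
  have h : tw ι g w = fun p q r s => ∑ i, vec R O v w i * b i p q r s := by
    induction w with
    | nil => funext p q r s; exact hb p q r s
    | cons x w ih =>
      have e : ∀ (M : Matrix (Fin n) (Fin n) ℤ) (u y : Fin n → ℤ),
          ∑ i, u i * ∑ j, M j i * y j = ∑ i, M.mulVec u i * y i := fun M u y => by
        simp only [Matrix.mulVec, dotProduct, Finset.sum_mul, Finset.mul_sum]
        rw [Finset.sum_comm]
        exact Finset.sum_congr rfl (fun _ _ => Finset.sum_congr rfl (fun _ _ => by ring))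
      cases x <;> funext p q r s <;> simp only [tw, ih, rung_lin, hR, vec, ← e]
      exact Finset.sum_congr rfl (fun i _ => by rw [hO i p q r s])
  rw [h, clo_lin]
  simp only [hc, dotProduct]

lemma vec_one (k : ℤ) (w : List Bool) : vec !![k] !![1] ![1] w 0 = k ^ w.count true := by
  induction w with
  | nil => simp [vec]
  | cons x w ih => cases x <;> simp [vec, Matrix.mulVec, dotProduct, ih, pow_succ, mul_comm]

lemma clo_faces (w : List Bool) :
    clo Prod.swap (tau (K := Bool)) (tw Prod.swap tau w) = 2 ^ (w.count true + 4) := by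
  rw [clo_tw _ _ ![fun a b c d => dd a.2 b.1 * dd b.2 c.1 * dd c.2 d.1 * dd d.2 a.1]
    !![2] !![1] ![1] ![16] (by decide +kernel) (by decide +kernel) (by decide +kernel)
    (by decide +kernel)]
  simp [dotProduct, vec_one, pow_add]

lemma clo_comp (w : List Bool) : clo id (allq (K := Bool)) (tw id allq w) = 2 := by
  rw [clo_tw _ _ ![fun a b c d => dd a b * dd b c * dd c d]
    !![1] !![1] ![1] ![2] (by decide +kernel) (by decide +kernel) (by decide +kernel)
    (by decide +kernel)]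
  simp [dotProduct, vec_one]

def RF : Matrix (Fin 4) (Fin 4) ℤ := !![0, 0, 2, 0; 0, 0, 0, 1; 1, 0, 1, 0; 0, 1, 0, 0]
def OF : Matrix (Fin 4) (Fin 4) ℤ := !![1, 0, 0, 0; 0, 0, 1, 0; 0, 1, 0, 0; 0, 0, 0, 1]

def fval (w : List Bool) : ℤ := vec RF OF ![0, 0, 1, 1] w ⬝ᵥ ![0, 0, 6, 6]

lemma clo_col (w : List Bool) : clo id dist3 (tw id dist3 w) = fval w :=
  clo_tw _ _ ![fun a b c d => dd a b * dd b c * dd c d,
    fun a b c d => dd a d * dd b c * (1 - dd a b), fun a b c d => dd a b * dd c d * (1 - dd a c),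
    fun a b c d => dd a c * dd b d * (1 - dd a b)] RF OF _ _
    (by decide +kernel) (by decide +kernel) (by decide +kernel) (by decide +kernel) w

end Pool.Agent.Lib.P41
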