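import Pool.Agent.Lib.P41.Nine

set_option autoImplicit false

namespace Pool.Agent.Lib.P41

open Function Sum

def rel9 : Rel 1 := [
  (1, [.V (inr 0) (inl 0) (inl 1), .V (inr 0) (inl 2) (inl 3)]),
  (1, [.V (inr 0) (inl 1) (inl 2), .V (inr 0) (inl 3) (inl 0)]),
  (4, [.A (inl 0) (inl 1), .A (inl 2) (inl 3)]), (4, [.A (inl 0) (inl 2), .A (inl 1) (inl 3)]),
  (4, [.A (inl 0) (inl 3), .A (inl 1) (inl 2)]), (6, [.T (inl 0) (inl 1) (inl 2) (inl 3)])]

lemma chk9 : chk rel9 = true := by decide +kernel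

variable {α : Type} [DecidableEq α] [Fintype α]

lemma SW_nine (R : List (Tri α)) (hR : R ≠ [])
    (ih : 3 ≤ R.length → ∀ R' : List (Tri α), R'.length = R.length → Cl (oc (vs R')) → 9 ∣ W R')
    (a b c d : α) (h : Cl (oc (vs R) + {a, b, c, d})) : 9 ∣ SW R a b c d := by
  have rot : ∀ a b c d : α, ({a, b, c, d} : Multiset α) = {b, c, d, a} := fun a b c d => by
    simp only [Multiset.insert_eq_cons, ← Multiset.singleton_add]; abel
  have sw : ∀ a b c d : α, ({a, b, c, d} : Multiset α) = {b, a, c, d} := fun a b c d =>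
    Multiset.cons_swap _ _ _
  -- a property of quadruples invariant under the symmetric group
  have sym : ∀ P : α → α → Prop,
      (∀ p q r s, ({p, q, r, s} : Multiset α) = {a, b, c, d} → P p q → 9 ∣ SW R p q r s) →
      (P a b ∨ P a c ∨ P a d ∨ P b c ∨ P b d ∨ P c d) → 9 ∣ SW R a b c d := by
    intro P hP hh
    rcases hh with hh | hh | hh | hh | hh | hh
    · exact hP _ _ _ _ rfl hh
    · rw [SW_s1, SW_s2]; exact hP _ _ _ _ (by rw [← rot, ← sw]) hh
    · rw [SW_s2, SW_s1, SW_s2, SW_s2, SW_s1, SW_s2, SW_s2, SW_s1, SW_s2, SW_s2]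
      exact hP _ _ _ _ (by simp only [Multiset.insert_eq_cons, ← Multiset.singleton_add]; abel) hh
    · rw [SW_s2]; exact hP _ _ _ _ (by rw [← rot]) hh
    · rw [SW_s2, SW_s1, SW_s2]
      exact hP _ _ _ _ (by simp only [Multiset.insert_eq_cons, ← Multiset.singleton_add]; abel) hh
    · rw [SW_s2, SW_s2]; exact hP _ _ _ _ (by rw [← rot, ← rot]) hh
  by_cases hn : ({a, b, c, d} : Multiset α).Nodup
  swap
  · refine sym (fun p q => p = q) ?_ ?_
    · rintro p _ r s e rfl
      exact SW_co R hR p r s (by rwa [e])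
    · simp only [Multiset.insert_eq_cons, Multiset.nodup_cons, Multiset.mem_cons,
        Multiset.mem_singleton, not_or, Multiset.nodup_singleton] at hn
      tauto
  by_cases h3 : 3 ≤ R.length
  · have h1 := AA_nine R (ih h3) a b c d hn h
    have e2 : ({a, c, b, d} : Multiset α) = {a, b, c, d} :=
      congrArg _ (Multiset.cons_swap _ _ _)
    have e3 : ({a, d, b, c} : Multiset α) = {a, b, c, d} := by
      simp only [Multiset.insert_eq_cons, ← Multiset.singleton_add]; abel
    have h2 := AA_nine R (ih h3) a c b d (by rwa [e2]) (by rwa [e2])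
    have h4 := AA_nine R (ih h3) a d b c (by rwa [e3]) (by rwa [e3])
    simp only [SW, Sf, mul_add, Finset.sum_add_distrib]
    exact dvd_add (dvd_add h1 h2) h4
  · obtain ⟨t1, h1, t2, h2, h12⟩ : ∃ t1 ∈ R, ∃ t2 ∈ R, ∀ v ∈ oc (vs R),
        v ∈ ({t1.1, t1.2.1, t1.2.2} : Multiset α) ∨ v ∈ ({t2.1, t2.2.1, t2.2.2} : Multiset α) := by
      rcases R with _ | ⟨t1, _ | ⟨t2, _ | ⟨t3, R⟩⟩⟩
      · exact absurd rfl hR
      · exact ⟨t1, by simp, t1, by simp, fun v hv => Or.inl (by simpa [oc, vs, Fac.oc] using hv)⟩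
      · refine ⟨t1, by simp, t2, by simp, fun v hv => ?_⟩
        rw [oc_cons, oc_cons, show oc (vs ([] : List (Tri α))) = 0 from rfl, add_zero] at hv
        exact Multiset.mem_add.1 hv
      · simp at h3
    have hm : ∀ v ∈ ({a, b, c, d} : Multiset α), v ∈ oc (vs R) := by
      intro v hv
      have := h v
      rw [Multiset.count_add, Multiset.count_eq_one_of_mem hn hv] at this
      exact Multiset.count_pos.1 (by omega)
    refine sym (fun p q => ∃ t ∈ R, p ∈ ({t.1, t.2.1, t.2.2} : Multiset α) ∧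
      q ∈ ({t.1, t.2.1, t.2.2} : Multiset α)) ?_ ?_
    · rintro p q r s e ⟨t, ht, hp, hq⟩
      exact SW_same R t ht p q r s (by rwa [e]) (by rwa [e]) hp hq
    · rcases h12 a (hm a (by simp)) with ha | ha <;> rcases h12 b (hm b (by simp)) with hb | hb
      · exact Or.inl ⟨_, h1, ha, hb⟩
      · rcases h12 c (hm c (by simp)) with hc | hc
        · exact Or.inr (Or.inl ⟨_, h1, ha, hc⟩)
        · exact Or.inr (Or.inr (Or.inr (Or.inl ⟨_, h2, hb, hc⟩)))
      · rcases h12 c (hm c (by simp)) with hc | hc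
        · exact Or.inr (Or.inr (Or.inr (Or.inl ⟨_, h1, hb, hc⟩)))
        · exact Or.inr (Or.inl ⟨_, h2, ha, hc⟩)
      · exact Or.inl ⟨_, h2, ha, hb⟩

lemma W_perm {R R' : List (Tri α)} (h : R.Perm R') : W R = W R' :=
  Finset.sum_congr rfl (fun x _ => val_perm h x)

lemma W_rot (a b c : α) (R : List (Tri α)) : W ((a, b, c) :: R) = W ((b, c, a) :: R) :=
  Finset.sum_congr rfl (fun x _ => by rw [val_cons, val_cons, fv_rot])

lemma W_flip (a b c : α) (R : List (Tri α)) : W ((a, b, c) :: R) = - W ((a, c, b) :: R) := by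
  rw [W, W, Z, Z, ← Finset.sum_neg_distrib]
  exact Finset.sum_congr rfl (fun x _ => by
    rw [val_cons, val_cons, ← neg_mul, ← fv_flip, fv_rot (x c)])

lemma IH_move (R : List (Tri α)) (hR : R ≠ []) (e a b c d : α)
    (h : Cl (oc (vs ((e, a, b) :: (e, c, d) :: R)))) :
    Cl (oc (vs R) + {a, b, c, d}) ∧ 9 ∣ W ((e, a, b) :: (e, c, d) :: R) +
      W ((e, b, c) :: (e, d, a) :: R) + 4 * SW R a b c d := by
  have e1 : oc (vs ((e, a, b) :: (e, c, d) :: R)) = oc (vs R) + {a, b, c, d} + {e, e} := by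
    simp only [oc_cons, Multiset.insert_eq_cons, ← Multiset.singleton_add]; abel
  rw [e1] at h
  constructor
  · intro v
    have h1 := h v
    rw [Multiset.count_add, Multiset.insert_eq_cons e, Multiset.count_cons,
      Multiset.count_singleton] at h1
    generalize (oc (vs R) + {a, b, c, d}).count v = k at h1 ⊢
    by_cases hv : v = e
    · rw [if_pos hv] at h1; omega
    · rw [if_neg hv] at h1; omega
  have hk := key rel9 chk9 (vs R) (Sum.elim ![a, b, c, d] (fun _ => e)) (by
    convert h using 1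
    rw [add_assoc]
    congr 1) 8
  have h3 := three' R hR [Fac.T a b c d]
  have z1 : ∀ p q r s : α, Z 8 (vs R ++ [Fac.V e p q, Fac.V e r s]) =
      W ((e, p, q) :: (e, r, s) :: R) := fun p q r s =>
    Finset.sum_congr rfl (fun x _ => by
      rw [val_cons, val_cons]
      simp only [val, List.map_append, List.prod_append, List.map_cons, List.map_nil,
        List.prod_cons, List.prod_nil, sem_V]
      ring)
  have z2 : Z 8 (vs R ++ [Fac.A a b, Fac.A c d]) + Z 8 (vs R ++ [Fac.A a c, Fac.A b d]) +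
      Z 8 (vs R ++ [Fac.A a d, Fac.A b c]) = SW R a b c d := by
    simp only [Z, SW, ← Finset.sum_add_distrib]
    refine Finset.sum_congr rfl (fun x _ => ?_)
    simp only [val, List.map_append, List.prod_append, List.map_cons, List.map_nil,
      List.prod_cons, List.prod_nil, sem_A, Sf]
    ring
  have hk' := Int.modEq_zero_iff_dvd.1 hk
  change ((8 : ℕ) : ℤ) + 1 ∣ 1 * Z 8 (vs R ++ [Fac.V e a b, Fac.V e c d]) +
    (1 * Z 8 (vs R ++ [Fac.V e b c, Fac.V e d a]) + (4 * Z 8 (vs R ++ [Fac.A a b, Fac.A c d]) +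
    (4 * Z 8 (vs R ++ [Fac.A a c, Fac.A b d]) + (4 * Z 8 (vs R ++ [Fac.A a d, Fac.A b c]) +
    (6 * Z 8 (vs R ++ [Fac.T a b c d]) + 0))))) at hk'
  rw [z1, z1] at hk'
  omega

omit [DecidableEq α] [Fintype α] in
lemma mem_oc (R : List (Tri α)) (e : α) (h : e ∈ oc (vs R)) :
    ∃ t ∈ R, e ∈ ({t.1, t.2.1, t.2.2} : Multiset α) := by
  induction R with
  | nil => simp [oc, vs] at h
  | cons t R ih =>
    rw [oc_cons] at h
    rcases Multiset.mem_add.1 h with h | h
    · exact ⟨t, by simp, h⟩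
    · obtain ⟨t', h1, h2⟩ := ih h
      exact ⟨t', List.mem_cons_of_mem _ h1, h2⟩

inductive Path : List (Tri α) → α → α → Prop
  | refl (Q : List (Tri α)) (e : α) : Path Q e e
  | one (Q : List (Tri α)) (e c d z : α) : Path Q c z → Path ((e, c, d) :: Q) e z
  | two (Q : List (Tri α)) (e c d z : α) : Path Q d z → Path ((e, c, d) :: Q) e z

section
variable (n : ℕ)
  (hsw : ∀ (R : List (Tri α)) (e a b c d : α), R.length + 2 = n →
    Cl (oc (vs ((e, a, b) :: (e, c, d) :: R))) → 9 ∣ W ((e, b, c) :: (e, d, a) :: R) →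
    9 ∣ W ((e, a, b) :: (e, c, d) :: R))
include hsw

lemma path_nine {Q : List (Tri α)} {e z : α} (h : Path Q e z) : ∀ (b : α) (R : List (Tri α)),
    (Q ++ R).length + 1 = n → Cl (oc (vs ((e, b, z) :: (Q ++ R)))) →
    9 ∣ W ((e, b, z) :: (Q ++ R)) := by
  have step : ∀ (Q : List (Tri α)) (e c d z : α), (∀ (b : α) (R : List (Tri α)),
      (Q ++ R).length + 1 = n → Cl (oc (vs ((c, b, z) :: (Q ++ R)))) →
      9 ∣ W ((c, b, z) :: (Q ++ R))) → ∀ (b : α) (R : List (Tri α)),
      (Q ++ R).length + 2 = n → Cl (oc (vs ((e, b, z) :: (e, c, d) :: (Q ++ R)))) →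
      9 ∣ W ((e, b, z) :: (e, c, d) :: (Q ++ R)) := by
    intro Q e c d z ih b R hl hc
    apply hsw _ _ _ _ _ _ hl hc
    have hp : ((c, e, z) :: (e, d, b) :: (Q ++ R)).Perm ((c, e, z) :: (Q ++ (e, d, b) :: R)) :=
      List.Perm.cons _ List.perm_middle.symm
    rw [← W_rot, W_perm hp]
    refine ih e _ (by simp at hl ⊢; omega) ?_
    rw [← oc_perm hp]
    convert hc using 1
    simp only [oc_cons, Multiset.insert_eq_cons, ← Multiset.singleton_add]; abel
  induction h with
  | refl Q e =>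
    intro b R _ _
    have := W_flip e b e (Q ++ R)
    rw [W_rot e e b, W_rot e b e, W_rot b e e, W_rot e e b] at this
    omega
  | one Q e c d z _ ih => exact fun b R hl hc => step Q e c d z ih b R hl hc
  | two Q e c d z _ ih =>
    intro b R hl hc
    have h1 := step Q e d c z ih b R hl (by
      convert hc using 1
      simp only [List.cons_append, oc_cons, Multiset.insert_eq_cons, ← Multiset.singleton_add]
      abel)
    rw [W_perm (List.Perm.swap _ _ _), W_flip, W_perm (List.Perm.swap _ _ _)] at h1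
    exact (dvd_neg.1 h1)

lemma walk_nine (m : ℕ) : ∀ (R Q : List (Tri α)) (e b z : α), R.length = m →
    (Q ++ R).length + 1 = n → (∀ v ∈ oc (vs Q), Path Q b v) →
    Cl (oc (vs ((e, b, z) :: (Q ++ R)))) → 9 ∣ W ((e, b, z) :: (Q ++ R)) := by
  induction m using Nat.strong_induction_on with
  | _ m ih =>
  intro R Q e b z hm hl hQ hc
  have h1 := hc e
  have e1 : oc (vs (Q ++ R)) = oc (vs Q) + oc (vs R) := by simp [oc, vs]
  rw [oc_cons, e1] at h1
  by_cases hz : e = z
  · exact path_nine n hsw (hz ▸ Path.refl Q e) b R hl hc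
  have fl : Path Q b e → 9 ∣ W ((e, b, z) :: (Q ++ R)) := fun hp => by
    rw [W_rot]
    refine path_nine n hsw hp z R hl ?_
    convert hc using 1
    simp only [oc_cons, Multiset.insert_eq_cons, ← Multiset.singleton_add]; abel
  by_cases hb : e = b
  · exact fl (hb ▸ Path.refl Q e)
  by_cases hq : e ∈ oc (vs Q)
  · exact fl (hQ e hq)
  have hr : e ∈ oc (vs R) := by
    by_contra hr
    simp [Multiset.count_eq_zero.2 hq, Multiset.count_eq_zero.2 hr, hz, hb] at h1
  obtain ⟨c, d, R', hR', hW, hO⟩ : ∃ (c d : α) (R' : List (Tri α)), R'.length + 1 = R.length ∧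
      W ((e, b, z) :: (Q ++ R)) = W ((e, b, z) :: (e, c, d) :: (Q ++ R')) ∧
      oc (vs ((e, b, z) :: (Q ++ R))) = oc (vs ((e, b, z) :: (e, c, d) :: (Q ++ R'))) := by
    obtain ⟨t, ht, het⟩ := mem_oc R e hr
    obtain ⟨R1, R2, rfl⟩ := List.append_of_mem ht
    have hp : ((e, b, z) :: (Q ++ (R1 ++ t :: R2))).Perm (t :: (e, b, z) :: (Q ++ (R1 ++ R2))) := by
      rw [← List.append_assoc, ← List.append_assoc]
      exact (List.Perm.cons _ List.perm_middle).trans (List.Perm.swap _ _ _)
    rw [W_perm hp, oc_perm hp]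
    obtain ⟨p, q, r⟩ := t
    simp only [Multiset.insert_eq_cons, Multiset.mem_cons, Multiset.mem_singleton] at het
    rcases het with rfl | rfl | rfl
    · exact ⟨q, r, R1 ++ R2, by simp; omega, W_perm (List.Perm.swap _ _ _),
        oc_perm (List.Perm.swap _ _ _)⟩
    · refine ⟨r, p, R1 ++ R2, by simp; omega, by rw [W_rot, W_perm (List.Perm.swap _ _ _)], ?_⟩
      simp only [oc_cons, Multiset.insert_eq_cons, ← Multiset.singleton_add]; abel
    · refine ⟨p, q, R1 ++ R2, by simp; omega, by rw [← W_rot, W_perm (List.Perm.swap _ _ _)], ?_⟩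
      simp only [oc_cons, Multiset.insert_eq_cons, ← Multiset.singleton_add]; abel
  rw [hO] at hc
  rw [hW]
  have hl' : (Q ++ R').length + 2 = n := by simp at hl ⊢; omega
  apply hsw _ _ _ _ _ _ hl' hc
  rw [← W_rot, W_perm (List.Perm.swap _ _ _), W_flip, W_perm (List.Perm.swap _ _ _), dvd_neg]
  refine ih R'.length (by omega) R' ((e, b, d) :: Q) c e z rfl hl' ?_ ?_
  · intro v hv
    rw [oc_cons] at hv
    simp only [Multiset.insert_eq_cons, Multiset.mem_add, Multiset.mem_cons,
      Multiset.mem_singleton] at hv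
    rcases hv with (rfl | rfl | rfl) | hv
    · exact Path.refl _ _
    · exact Path.one _ _ _ _ _ (Path.refl _ _)
    · exact Path.two _ _ _ _ _ (Path.refl _ _)
    · exact Path.one _ _ _ _ _ (hQ v hv)
  · convert hc using 1
    simp only [List.cons_append, oc_cons, Multiset.insert_eq_cons, ← Multiset.singleton_add]
    abel

end

/-- Every closed cubic network with more than two vertices has value divisible by nine. -/
theorem nine (n : ℕ) : ∀ L : List (Tri α), L.length = n → 3 ≤ n → Cl (oc (vs L)) → 9 ∣ W L := by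
  induction n using Nat.strong_induction_on with
  | _ n ih =>
  intro L hL h3 hc
  rcases L with _ | ⟨⟨e, b, z⟩, R⟩
  · simp at hL; omega
  refine walk_nine n ?_ R.length R [] e b z rfl hL (by simp [oc, vs]) hc
  intro R e a b c d hl hc h9
  have hR : R ≠ [] := by rintro rfl; simp at hl; omega
  obtain ⟨h1, h2⟩ := IH_move R hR e a b c d hc
  have h4 := SW_nine R hR (fun h R' hR' hc' => ih R.length (by omega) R' hR' h hc') a b c d h1
  omega

end Pool.Agent.Lib.P41
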