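import Pool.Agent.Lib.P41.Planar
import Pool.Agent.Lib.P41.Nine2

set_option autoImplicit false

namespace Pool.Agent.Lib.P41

open Pool.Agent.Lib.MP_daa8b9_co Function

variable {E V : Type} [Fintype E] [DecidableEq E] [Fintype V]
  {σ : Equiv.Perm (E × Bool)} {φ : V × Fin 3 ≃ E × Bool}

lemma penrose_modEq (σ : Equiv.Perm (E × Bool)) (N : ℕ) :
    penrose σ N ≡ penrose σ (-1) [ZMOD ((N : ℤ) + 1)] :=
  Int.ModEq.sum (fun _ _ => Int.ModEq.mul_left _ (Int.ModEq.pow _
    (Int.modEq_iff_dvd.2 ⟨-1, by ring⟩)))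

lemma penrose_eight (σ : Equiv.Perm (E × Bool)) :
    8 ∣ penrose σ (-1) + penrose σ 3 - 2 * penrose σ 1 := by
  simp only [penrose, Finset.mul_sum, ← Finset.sum_add_distrib, ← Finset.sum_sub_distrib]
  refine Finset.dvd_sum (fun s _ => ?_)
  have : ∀ c : ℕ, (8 : ℤ) ∣ (-1) ^ c + 3 ^ c - 2 := by
    intro c
    induction c using Nat.twoStepInduction with
    | zero => norm_num
    | one => norm_num
    | more c ih _ =>
      rw [pow_add, pow_add]
      omega
  convert (this (classes (paired σ s))).mul_left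
    ((-1) ^ (Finset.univ.filter (fun e => s e = true)).card) using 1
  ring

lemma penrose_zero (h : Pres σ φ) (N : ℕ) (h0 : ZM φ id (fv (K := Fin N)) = 0) :
    penrose σ N = 0 := by
  rw [ZM_penrose h] at h0
  exact (mul_eq_zero.1 h0).resolve_left (by positivity)

lemma penrose_loop (h : Pres σ φ) (d : E × Bool) (hl : d.1 = (σ d).1) (N : ℕ) :
    (N : ℤ) + 1 ∣ penrose σ (-1) := by
  have := penrose_modEq σ N
  rw [penrose_zero h N (ZM_loop h d hl)] at this
  exact Int.modEq_zero_iff_dvd.1 this.symm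

lemma col_theta (hc : Cubic σ) (h : Pres σ φ) (hl : ∀ d : E × Bool, d.1 ≠ (σ d).1) (v : V)
    (hE : Fintype.card E = 3) : colourings σ = 6 := by
  have h1 := ZM_col hc h hl
  have inj : ∀ {A : Type} (c : E → A), (∀ d : E × Bool, c d.1 ≠ c (σ d).1) →
      Injective (fun i => c (φ (v, i)).1) := by
    intro A c hc i j e
    have h0 := hc (φ (v, 0))
    have h1 := hc (φ (v, 1))
    have h2 := hc (φ (v, 2))
    rw [← h] at h0 h1 h2
    fin_cases i <;> fin_cases j <;>
      first | rfl | exact absurd e h0 | exact absurd e h1 | exact absurd e h2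
            | exact absurd e.symm h0 | exact absurd e.symm h1 | exact absurd e.symm h2
  have hs : Surjective (fun i => (φ (v, i)).1) :=
    ((Fintype.bijective_iff_injective_and_card _).2 ⟨inj id hl, by simp [hE]⟩).2
  have h2 : ∀ c : E → Fin 3, vw φ dist3 (dv id c) = ind (Injective c) := fun c => by
    rw [vw_dist3 h]
    exact ind_congr ⟨fun hc => (inj c hc).of_comp_right hs, fun hc d e => hl d (hc e)⟩
  simp only [ZM, h2] at h1
  rw [sum_ind, Nat.card_congr (Equiv.subtypeInjectiveEquivEmbedding E (Fin 3)),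
    Nat.card_eq_fintype_card, Fintype.card_embedding_eq, hE] at h1
  exact_mod_cast h1.symm

theorem positive (σ : Equiv.Perm (E × Bool)) (h3 : Cubic σ) (hc : Connected σ) (hp : Plane σ)
    (d : ℕ) (hd : d ∣ 360) (hF : d ∣ colourings σ) : (d : ℤ) ∣ penrose σ (-1) := by
  classical
  obtain ⟨φ, h⟩ := exists_pres σ h3
  have := Fintype.ofFinite (Quot (fun a b => b = σ a))
  by_cases hl : ∀ d : E × Bool, d.1 ≠ (σ d).1
  swap
  · obtain ⟨a, ha⟩ := not_forall.1 hl
    exact (Int.natCast_dvd_natCast.2 hd).trans (penrose_loop h a (not_not.1 ha) 359)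
  obtain ⟨q⟩ := (Nat.card_eq_one_iff_unique.1 hc).2
  let v := (φ.symm q.out).1
  have z1 : penrose σ (1 : ℕ) = 0 := penrose_zero h 1 (Finset.sum_eq_zero (fun x _ =>
    Finset.prod_eq_zero (Finset.mem_univ v)
      ((by decide : ∀ p q r : Fin 1 × Fin 1, fv p q r = 0) _ _ _)))
  have z2 : penrose σ (2 : ℕ) = 0 := penrose_zero h 2 (Finset.sum_eq_zero (fun x _ =>
    Finset.prod_eq_zero (Finset.mem_univ v)
      ((by decide : ∀ p q r : Fin 2 × Fin 2, fv p q r = 0) _ _ _)))
  have he := ZM_eps h3 hc hp h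
  rw [ZM_col h3 h hl] at he
  have z3 : penrose σ (3 : ℕ) = colourings σ := by
    have := ZM_penrose h 3
    rw [ZM_three, he, ← mul_assoc, ← mul_pow] at this
    exact (mul_left_cancel₀ (by positivity) this).symm
  have d8 := penrose_eight σ
  have d3 := (penrose_modEq σ 2).dvd
  have d5 : (5 : ℤ) ∣ colourings σ → 5 ∣ penrose σ (-1) := fun h5 => by
    have h4 := ZM_four φ
    rw [he, ZM_penrose h] at h4
    have h6 : (5 : ℤ) ∣ 2 ^ Fintype.card (Quot (fun a b => b = σ a)) *
        ((-2) ^ Fintype.card E * penrose σ (4 : ℕ)) :=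
      h4 ▸ ((h5.mul_left _).mul_right _).mul_left _
    have h7 := (IsCoprime.pow_right (by norm_num : IsCoprime (5 : ℤ) (-2))).dvd_of_dvd_mul_left
      ((IsCoprime.pow_right (by norm_num : IsCoprime (5 : ℤ) 2)).dvd_of_dvd_mul_left h6)
    have := (penrose_modEq σ 4).dvd
    omega
  have d9 : (9 : ℤ) ∣ colourings σ → 9 ∣ penrose σ (-1) := fun h9 => by
    by_cases hV : 3 ≤ Fintype.card (Quot (fun a b => b = σ a))
    · obtain ⟨e1, e2, e3⟩ := ZM_nine φ
      have h6 := nine _ _ e3 hV e2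
      rw [← e1, ZM_penrose h] at h6
      have h7 := (IsCoprime.pow_right (by norm_num : IsCoprime (9 : ℤ) (-2))).dvd_of_dvd_mul_left h6
      have := (penrose_modEq σ 8).dvd
      omega
    · have h1 := card_vert φ
      have h2 := Fintype.card_pos_iff.2 ⟨v⟩
      rw [col_theta h3 h hl v (by omega)] at h9
      norm_num at h9
  have hF' := Int.natCast_dvd_natCast.2 hF
  push_cast at z1 z2 z3 d3
  rw [z1, z3] at d8
  rw [z2] at d3
  generalize penrose σ (-1) = P at *
  generalize (colourings σ : ℤ) = F at *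
  have hd' : d ∈ Nat.divisors 360 := Nat.mem_divisors.2 ⟨hd, by norm_num⟩
  rw [show Nat.divisors 360 = {1, 2, 3, 4, 5, 6, 8, 9, 10, 12, 15, 18, 20, 24, 30, 36, 40, 45, 60,
    72, 90, 120, 180, 360} by decide +kernel] at hd'
  clear he hF hd z1 z2 z3
  simp only [Finset.mem_insert, Finset.mem_singleton] at hd'
  rcases hd' with h | h | h | h | h | h | h | h | h | h | h | h | h | h | h | h | h | h | h | h |
    h | h | h | h <;> subst h <;> omega

end Pool.Agent.Lib.P41
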