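import Pool.Agent.Lib.P41.Fam
import Pool.Agent.Lib.P41.Pos
import Pool.Agent.Lib.P41.ChkA
import Pool.Agent.Lib.P41.ChkB

set_option autoImplicit false

namespace Pool.Agent.Lib.P41

open Pool.Agent.Lib.MP_daa8b9_co Function Sum Matrix

variable {N : ℕ}

abbrev GN (N : ℕ) := Fin N × Fin N

def pr (Y : Ten (GN N)) (Gs : List (Fac (Loc 3))) : ℤ :=
  ∑ u : Loc 3 → GN N, Y (u (inl 0)) (u (inl 1)) (u (inl 2)) (u (inl 3)) * val Gs u

def p4 (Y : Ten (GN N)) (b : List (Fac (Fin 4))) : ℤ :=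
  ∑ z : Fin 4 → GN N, Y (z 0) (z 1) (z 2) (z 3) * val b z

lemma val_map {α β K : Type} [DecidableEq K] (s : α → β) (L : List (Fac α)) (x : β → K × K) :
    val (L.map (Fac.map s)) x = val L (x ∘ s) := by
  simp only [val, List.map_map]
  congr 1
  exact List.map_congr_left (fun F _ => sem_map s x F)

lemma val_map' {α β K : Type} [DecidableEq K] (s : α → β) (L : List (Fac α)) (x : β → K × K)
    (y : α → K × K) (h : ∀ i, x (s i) = y i) : val (L.map (Fac.map s)) x = val L y := by
  rw [val_map, show x ∘ s = y from funext h]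

lemma val_append {α K : Type} [DecidableEq K] (L L' : List (Fac α)) (x : α → K × K) :
    val (L ++ L') x = val L x * val L' x := by simp [val]

lemma pr_key (w : List Bool) (S : Rel 3) (hS : chk S = true) (π : Loc 3 → Loc 3)
    (hπ : (S0 3).map π = S0 3) :
    (S.map (fun r => r.1 * pr (N := N) (tw id fv w) (r.2.map (Fac.map π)))).sum ≡ 0
      [ZMOD ((N : ℤ) + 1)] := by
  obtain ⟨E, V, _, _, _, φ, -, h⟩ := real_open w
  let n : (E × Bool) ⊕ Fin 4 → E ⊕ Loc 3 := Sum.elim (fun d => inl d.1) (fun i => inr (inl i))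
  have hk := key S hS (vs (vlist φ n)) (inr ∘ π) (by
    rw [← Multiset.map_map, hπ, oc_vlist]
    intro v
    rw [Multiset.count_add, Multiset.count_sum', Fintype.sum_sum_type, Fintype.sum_prod_type]
    right
    rcases v with e | v
    · rw [Multiset.count_eq_zero.2 (show inl e ∉ (S0 3).map inr by simp)]
      simp [n, Multiset.count_singleton]
    · rw [Multiset.count_map_eq_count' _ _ inr_injective]
      simp only [n, Multiset.count_singleton, Sum.elim_inl, Sum.elim_inr, reduceCtorEq, if_false,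
        Finset.sum_const_zero, zero_add, inr.injEq]
      revert v
      decide) N
  convert hk using 5 with r
  rw [pr, Z, ← (Equiv.sumArrowEquivProdArrow E (Loc 3) (GN N)).symm.sum_comp,
    Fintype.sum_prod_type_right]
  refine Finset.sum_congr rfl (fun u _ => ?_)
  have h1 := h (GN N) id fv (u ∘ inl)
  simp only [Function.comp_apply] at h1
  rw [← h1, ten, Finset.sum_mul]
  refine Finset.sum_congr rfl (fun x _ => ?_)
  rw [val_append, val_vlist, val_map, val_map]
  congr 2
  funext q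
  rcases q with d | i
  · exact dv_id x d
  · rfl

lemma pow_one_mod (k : ℕ) : (N : ℤ) ^ (2 * k) ≡ 1 [ZMOD ((N : ℤ) + 1)] := by
  have : (N : ℤ) ≡ -1 [ZMOD ((N : ℤ) + 1)] := Int.modEq_iff_dvd.2 ⟨-1, by ring⟩
  simpa using this.pow (2 * k)

lemma pr_inn (Y : Ten (GN N)) (b : List (Fac (Fin 4))) :
    pr Y (inn b) ≡ p4 Y b [ZMOD ((N : ℤ) + 1)] := by
  have : pr Y (inn b) = N ^ (2 * 3) * p4 Y b := by
    rw [pr, p4, ← (Equiv.sumArrowEquivProdArrow _ _ (GN N)).symm.sum_comp,
      Fintype.sum_prod_type, Finset.mul_sum]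
    refine Finset.sum_congr rfl (fun z _ => ?_)
    simp only [inn, val_map]
    refine (Finset.sum_const (Y (z 0) (z 1) (z 2) (z 3) * val b z)).trans ?_
    simp [← sq, ← pow_mul]
  rw [this]
  simpa using (pow_one_mod 3).mul_right (p4 Y b)

lemma pr_rung (Y : Ten (GN N)) (b : List (Fac (Fin 4))) :
    pr Y (locR b) = p4 (rung id fv Y) b := by
  rw [pr, p4, ← (Equiv.arrowCongr ((Equiv.swap (inl 0) (inr 0)).trans
    (Equiv.swap (inl 1 : Loc 3) (inr 1))) (Equiv.refl (GN N))).sum_comp,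
    ← (Equiv.sumArrowEquivProdArrow _ _ (GN N)).symm.sum_comp, Fintype.sum_prod_type]
  refine Finset.sum_congr rfl (fun z _ => ?_)
  simp only [sum_cons, Fintype.sum_unique, rung, Finset.sum_mul, locR, val_append]
  refine Finset.sum_congr rfl (fun p _ => Finset.sum_congr rfl (fun q _ =>
    Finset.sum_congr rfl (fun e _ => ?_)))
  rw [val_map' _ _ _ z (fun i => by fin_cases i <;> rfl)]
  simp only [val, List.map_cons, List.map_nil, List.prod_cons, List.prod_nil, sem_V, mul_one]
  change Y p q (z 2) (z 3) * ((b.map (Fac.sem z)).prod * (fv p (z 0) e * fv q e (z 1))) = _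
  simp only [id]
  ring

lemma pr_clo (Y : Ten (GN N)) :
    pr Y [.V (inl 2) (inl 1) (inr 0), .V (inl 0) (inl 3) (inr 0)] ≡ clo id fv Y
      [ZMOD ((N : ℤ) + 1)] := by
  have : pr Y [.V (inl 2) (inl 1) (inr 0), .V (inl 0) (inl 3) (inr 0)] =
      N ^ (2 * 2) * clo id fv Y := by
    rw [pr, ← (Equiv.sumArrowEquivProdArrow _ _ (GN N)).symm.sum_comp, Fintype.sum_prod_type]
    simp only [sum_cons (n := 3), sum_cons (n := 2), sum_cons (n := 1), sum_cons (n := 0),
      Fintype.sum_unique, clo, Finset.mul_sum, val, List.map_cons, List.map_nil, List.prod_cons,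
      List.prod_nil, sem_V, mul_one]
    refine Finset.sum_congr rfl (fun a _ => Finset.sum_congr rfl (fun b _ =>
      Finset.sum_congr rfl (fun c _ => Finset.sum_congr rfl (fun d _ =>
      Finset.sum_congr rfl (fun e _ => ?_)))))
    change ∑ _p : GN N, ∑ _q : GN N, Y a b c d * (fv c b e * fv a d e) = _
    simp [← sq, ← pow_mul]
    ring
  rw [this]
  simpa using (pow_one_mod 2).mul_right _

lemma p4_rot (Y : Ten (GN N)) (b : List (Fac (Fin 4))) :
    p4 (fun a b c d => Y d a b c) b = p4 Y (b.map (Fac.map (finRotate 4))) := by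
  rw [p4, p4, ← (Equiv.arrowCongr (finRotate 4).symm (Equiv.refl (GN N))).sum_comp]
  exact Finset.sum_congr rfl (fun z _ => by rw [val_map]; rfl)

lemma p4_base (b : List (Fac (Fin 4))) : p4 (N := N) (base id fv) b ≡
    evK (([.V (inr 0) (inl 3) (inl 0), .V (inr 0) (inl 1) (inl 2)] ++ b.map (Fac.map inl) :
      List (Fac (Loc 1))).map Fac.fm) (labOf [0, 1, 2, 3, 4, 5, 6, 7]) [ZMOD ((N : ℤ) + 1)] := by
  rw [evK_eq]
  convert Z_ev N (labOf (m := 1) [0, 1, 2, 3, 4, 5, 6, 7]) (by decide) _ using 1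
  rw [p4, Z, ← (Equiv.sumArrowEquivProdArrow _ _ (GN N)).symm.sum_comp, Fintype.sum_prod_type]
  refine Finset.sum_congr rfl (fun z _ => ?_)
  simp only [sum_cons, Fintype.sum_unique, base, Finset.sum_mul, val_append, val_map]
  refine Finset.sum_congr rfl (fun e _ => ?_)
  simp only [val, List.map_cons, List.map_nil, List.prod_cons, List.prod_nil, sem_V, mul_one]
  rfl

def RP : Matrix (Fin 5) (Fin 5) ℤ := !![-16, -16, -16, -16, -8; -16, -16, -16, -8, -16;
  0, 0, 48, 0, 0; 0, 0, -32, 32, 8; 0, 0, -32, 8, 32]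
def OP : Matrix (Fin 5) (Fin 5) ℤ := !![0, 0, 1, 0, 0; 0, 1, 0, 0, 0; 1, 0, 0, 0, 0;
  0, 0, 0, 1, 0; -2, -2, -2, -1, -1]

def pv (w : List Bool) : Fin 5 → ℤ := vec RP OP ![0, -192, 192, -576, 0] w

def zval (w : List Bool) : ℤ := ![-4, -4, -4, -4, -2] ⬝ᵥ pv w

lemma p4_sw (Y : Ten (GN N)) (F F' : Fac (Fin 4)) : p4 Y [F, F'] = p4 Y [F', F] :=
  Finset.sum_congr rfl (fun z _ => by simp only [val, List.map_cons, List.prod_cons]; ring)

lemma p4_c (Y : Ten (GN N)) (F : Fac (Fin 4)) (c d : Fin 4) :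
    p4 Y [F, .A c d] = p4 Y [F, .A d c] :=
  Finset.sum_congr rfl (fun z _ => by
    simp only [val, List.map_cons, List.prod_cons, sem_A, fa_comm (z c)])

lemma use_rel (w : List Bool) (ih : ∀ i, p4 (N := N) (tw id fv w) (bb i) ≡ pv w i
      [ZMOD ((N : ℤ) + 1)]) (G : List (Fac (Loc 3))) (c0 c1 c2 c3 c4 : ℤ)
    (h : chk (relOf G c0 c1 c2 c3 c4) = true) :
    pr (N := N) (tw id fv w) G ≡ ![c0, c1, c2, c3, c4] ⬝ᵥ pv w [ZMOD ((N : ℤ) + 1)] ∧
    pr (N := N) (tw id fv w) (G.map (Fac.map (Sum.map ![0, 1, 3, 2] id))) ≡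
      ![c1, c0, c2, c4, c3] ⬝ᵥ pv w [ZMOD ((N : ℤ) + 1)] := by
  have hi := fun i => (pr_inn (N := N) (tw id fv w) (bb i)).trans (ih i)
  have e0 : G.map (Fac.map id) = G := by
    conv_rhs => rw [← List.map_id G]
    exact List.map_congr_left (fun F _ => by cases F <;> rfl)
  have h1 := pr_key (N := N) w _ h id (by decide)
  have h2 := pr_key (N := N) w _ h (Sum.map ![0, 1, 3, 2] id) (by decide)
  have h3 := pr_inn (N := N) (tw id fv w) [.A 0 1, .A 3 2]
  rw [p4_c] at h3
  have h4 := h3.trans (ih 2)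
  simp only [dotProduct, Fin.sum_univ_five]
  constructor
  · change -1 * pr _ (G.map (Fac.map id)) + (c0 * pr _ (inn (bb 0)) + (c1 * pr _ (inn (bb 1)) +
      (c2 * pr _ (inn (bb 2)) + (c3 * pr _ (inn (bb 3)) + (c4 * pr _ (inn (bb 4)) + 0))))) ≡ _
      [ZMOD _] at h1
    rw [e0] at h1
    have := ((((((hi 0).mul_left c0).add ((hi 1).mul_left c1)).add ((hi 2).mul_left c2)).add
      ((hi 3).mul_left c3)).add ((hi 4).mul_left c4)).sub h1
    convert this using 1
    · ring
    · exact (sub_zero _).symm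
  · change -1 * pr _ (G.map _) + (c0 * pr _ (inn (bb 1)) + (c1 * pr _ (inn (bb 0)) +
      (c2 * pr _ (inn [.A 0 1, .A 3 2]) + (c3 * pr _ (inn (bb 4)) + (c4 * pr _ (inn (bb 3)) +
      0))))) ≡ _ [ZMOD _] at h2
    have := ((((((hi 0).mul_left c1).add ((hi 1).mul_left c0)).add (h4.mul_left c2)).add
      ((hi 3).mul_left c4)).add ((hi 4).mul_left c3)).sub h2
    convert this using 1
    · ring
    · exact (sub_zero _).symm

lemma p4_tw (w : List Bool) : ∀ i, p4 (N := N) (tw id fv w) (bb i) ≡ pv w i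
    [ZMOD ((N : ℤ) + 1)] := by
  induction w with
  | nil =>
    intro i
    refine (p4_base (bb i)).trans (congrArg (· % _) ?_)
    revert i
    decide +kernel
  | cons x w ih =>
    intro i
    cases x
    · rw [tw, p4_rot]
      fin_cases i
      · exact (p4_sw _ _ _).trans ((p4_c _ _ _ _).trans (p4_sw _ _ _)) ▸ ih 2 |>.trans
          (by simp [pv, vec, OP, mulVec, dotProduct, Fin.sum_univ_five])
      · exact (p4_sw _ _ _).trans (p4_c _ _ _ _) ▸ ih 1 |>.trans
          (by simp [pv, vec, OP, mulVec, dotProduct, Fin.sum_univ_five])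
      · exact (p4_sw _ _ _).trans (p4_c _ _ _ _) ▸ ih 0 |>.trans
          (by simp [pv, vec, OP, mulVec, dotProduct, Fin.sum_univ_five])
      · exact (pr_inn _ _).symm.trans (use_rel w ih _ _ _ _ _ _ chkO3).1
      · exact (pr_inn _ _).symm.trans (use_rel w ih _ _ _ _ _ _ chkO4).1
    · rw [tw, ← pr_rung]
      fin_cases i
      · exact (use_rel w ih _ _ _ _ _ _ chkR0).1
      · exact (use_rel w ih _ _ _ _ _ _ chkR0).2
      · exact (use_rel w ih _ _ _ _ _ _ chkR2).1
      · exact (use_rel w ih _ _ _ _ _ _ chkR3).1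
      · exact (use_rel w ih _ _ _ _ _ _ chkR3).2

lemma clo_pen (w : List Bool) : clo id (fv (K := Fin N)) (tw id fv w) ≡ zval w
    [ZMOD ((N : ℤ) + 1)] :=
  (pr_clo _).symm.trans (use_rel w (p4_tw w) _ _ _ _ _ _ chkC).1

theorem word_map (w : List Bool) (hz : zval w ≠ 0) :
    ∃ (E : Type) (_ : Fintype E) (_ : DecidableEq E) (σ : Equiv.Perm (E × Bool)),
      Cubic σ ∧ Connected σ ∧ Plane σ ∧ (colourings σ : ℤ) = fval w ∧
      (-2) ^ (3 * w.count true + 6) * penrose σ (-1) = zval w := by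
  obtain ⟨E, V, _, _, _, φ, hE, h⟩ := real_closed w
  let σ : Equiv.Perm (E × Bool) :=
    φ.symm.trans (((Equiv.refl V).prodCongr (Equiv.addRight 1)).trans φ)
  have hp : Pres σ φ := fun v i => by simp [σ]
  have h3 : Cubic σ := fun d => by
    obtain ⟨⟨v, i⟩, rfl⟩ := φ.surjective d
    simp only [← hp v, ne_eq, EmbeddingLike.apply_eq_iff_eq, Prod.mk.injEq, true_and]
    revert i
    decide
  have hP : (-2) ^ (3 * w.count true + 6) * penrose σ (-1) = zval w := by
    have : ∀ N : ℕ, (-2) ^ (3 * w.count true + 6) * penrose σ (-1) ≡ zval w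
        [ZMOD ((N : ℤ) + 1)] := fun N => by
      have := clo_pen (N := N) w
      rw [← h, ZM_penrose hp, hE] at this
      exact ((penrose_modEq σ N).symm.mul_left _).trans this
    have h1 := (this (zval w - (-2) ^ (3 * w.count true + 6) * penrose σ (-1)).natAbs).dvd
    have h2 := Int.eq_zero_of_abs_lt_dvd h1 (by rw [Int.natCast_natAbs]; omega)
    omega
  refine ⟨E, inferInstance, inferInstance, σ, h3, ?_, ?_, ?_, hP⟩
  · have := ZM_comp (K := Bool) hp
    rw [h, clo_comp] at this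
    exact (Nat.pow_right_injective (le_refl 2) (by
      simp only [Fintype.card_bool] at this; exact_mod_cast this)).symm
  · have h1 := ZM_faces (K := Bool) hp
    rw [h, clo_faces] at h1
    have h2 : w.count true + 4 = classes (fun a b => σ b = opp a) :=
      Nat.pow_right_injective (le_refl 2) (by
        simp only [Fintype.card_bool] at h1; exact_mod_cast h1)
    have h4 := card_vert φ
    rw [Plane, classes_vert h3 φ]
    omega
  · rw [← clo_col, ← h, ZM_col h3 hp]
    intro d hd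
    have h1 := penrose_loop hp d hd (penrose σ (-1)).natAbs
    rw [Int.eq_zero_of_abs_lt_dvd h1 (by rw [Int.natCast_natAbs]; omega), mul_zero] at hP
    exact hz hP.symm

end Pool.Agent.Lib.P41
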