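import Pool.Agent.Lib.P41.Nine

set_option autoImplicit false

namespace Pool.Agent.Lib.P41

open Pool.Agent.Lib.MP_daa8b9_co Function

variable {E V G G' D K : Type}

/-- `φ` lists the half-edges vertex by vertex in the cyclic order of `σ`. -/
def Pres (σ : Equiv.Perm D) (φ : V × Fin 3 ≃ D) : Prop := ∀ v i, φ (v, i + 1) = σ (φ (v, i))

lemma exists_pres [Fintype E] (σ : Equiv.Perm (E × Bool)) (h : Cubic σ) :
    ∃ φ : Quot (fun a b => b = σ a) × Fin 3 ≃ E × Bool, Pres σ φ := by
  have h3 : ∀ d, σ (σ d) ≠ d := fun d e => (h d).1 (by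
    have := (h d).2; rw [e] at this; exact this)
  have hq : ∀ a b, Quot.mk (fun a b => b = σ a) a = Quot.mk _ b →
      b = a ∨ b = σ a ∨ b = σ (σ a) := by
    intro a b hab
    have := Quot.eqvGen_exact hab
    clear hab
    induction this with
    | rel x y h => exact Or.inr (Or.inl h)
    | refl x => exact Or.inl rfl
    | symm x y _ ih => rcases ih with rfl | rfl | rfl <;> simp [(h _).2]
    | trans x y z _ _ ih1 ih2 =>
      rcases ih1 with rfl | rfl | rfl <;> rcases ih2 with rfl | rfl | rfl <;> simp [(h _).2]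
  have hs : ∀ a, Quot.mk (fun a b => b = σ a) (σ a) = Quot.mk _ a :=
    fun a => (Quot.sound (r := fun a b => b = σ a) rfl).symm
  let f : Quot (fun a b => b = σ a) × Fin 3 → E × Bool :=
    fun p => ![p.1.out, σ p.1.out, σ (σ p.1.out)] p.2
  have hf : ∀ p, Quot.mk _ (f p) = p.1 := by
    rintro ⟨v, i⟩
    fin_cases i <;> simp [f, hs]
  refine ⟨Equiv.ofBijective f ⟨?_, ?_⟩, ?_⟩
  · rintro ⟨v, i⟩ ⟨v', j⟩ e
    have e1 : v = v' := (hf (v, i)).symm.trans ((congrArg _ e).trans (hf (v', j)))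
    subst e1
    have h1 := (h v.out).1
    have h2 := h3 v.out
    fin_cases i <;> fin_cases j <;> simp [f] at e ⊢ <;>
      first | exact h1 e | exact h1 e.symm | exact h2 e | exact h2 e.symm
  · intro d
    rcases hq (Quot.mk (fun a b => b = σ a) d).out d (Quot.out_eq _) with e | e | e
    · exact ⟨(Quot.mk _ d, 0), e.symm⟩
    · exact ⟨(Quot.mk _ d, 1), e.symm⟩
    · exact ⟨(Quot.mk _ d, 2), e.symm⟩
  · intro v i
    fin_cases i
    · rfl
    · rfl
    · exact (h v.out).2.symm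

lemma prod_vert {M : Type} [CommMonoid M] [Fintype V] [Fintype D] (φ : V × Fin 3 ≃ D)
    (H : D → M) : ∏ d, H d = ∏ v, H (φ (v, 0)) * H (φ (v, 1)) * H (φ (v, 2)) := by
  rw [← φ.prod_comp, Fintype.prod_prod_type]
  simp only [Fin.prod_univ_three]

lemma prod_edge {M : Type} [CommMonoid M] [Fintype E] (H : E × Bool → M) :
    ∏ d, H d = ∏ e, H (e, false) * H (e, true) := by
  rw [Fintype.prod_prod_type]
  simp only [Fintype.prod_bool, mul_comm]

lemma Pres.prod {M : Type} [CommMonoid M] [Fintype V] [Fintype D] {σ : Equiv.Perm D}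
    {φ : V × Fin 3 ≃ D} (h : Pres σ φ) (H : D → D → M) : ∏ d, H d (σ d) =
      ∏ v, H (φ (v, 0)) (φ (v, 1)) * H (φ (v, 1)) (φ (v, 2)) * H (φ (v, 2)) (φ (v, 0)) := by
  rw [prod_vert φ]
  simp only [← h _ _]
  rfl

def dv (ι : G → G) (x : E → G) (d : E × Bool) : G := cond d.2 (ι (x d.1)) (x d.1)

lemma dv_id (x : E → G) (d : E × Bool) : dv id x d = x d.1 := by
  obtain ⟨e, b⟩ := d
  cases b <;> rfl

def vw [Fintype V] (φ : V × Fin 3 ≃ D) (g : G → G → G → ℤ) (w : D → G) : ℤ :=
  ∏ v, g (w (φ (v, 0))) (w (φ (v, 1))) (w (φ (v, 2)))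

variable [Fintype E] [DecidableEq E] [Fintype V]

/-- State sum of a map in the model `(G, ι, g)`. -/
def ZM [Fintype G] (φ : V × Fin 3 ≃ E × Bool) (ι : G → G) (g : G → G → G → ℤ) : ℤ :=
  ∑ x : E → G, vw φ g (dv ι x)

lemma ZM_change [Fintype G] [Fintype G'] (φ : V × Fin 3 ≃ E × Bool) (f : G → G → G → ℤ)
    (g : G' → G' → G' → ℤ) (M : G → G' → ℤ)
    (h : ∀ a b c, f a b c = ∑ p, M a p * ∑ q, M b q * ∑ r, M c r * g p q r) :
    ZM φ id f = ∑ w : E × Bool → G',
      (∏ e, ∑ a, M a (w (e, false)) * M a (w (e, true))) * vw φ g w := by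
  classical
  have h1 : ∀ a b c, f a b c =
      ∑ t : Fin 3 → G', M a (t 0) * M b (t 1) * M c (t 2) * g (t 0) (t 1) (t 2) := by
    intro a b c
    rw [h, ← (Fin.consEquiv (fun _ : Fin 3 => G')).sum_comp, Fintype.sum_prod_type]
    refine Finset.sum_congr rfl (fun p _ => ?_)
    rw [← (piFinTwoEquiv (fun _ => G')).symm.sum_comp, Fintype.sum_prod_type, Finset.mul_sum]
    refine Finset.sum_congr rfl (fun q _ => ?_)
    rw [Finset.mul_sum, Finset.mul_sum]
    refine Finset.sum_congr rfl (fun r _ => ?_)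
    show _ = M a p * M b q * M c r * g p q r
    ring
  have h2 : ∀ x : E → G, vw φ f (dv id x) =
      ∑ w : E × Bool → G', (∏ e, M (x e) (w (e, false)) * M (x e) (w (e, true))) * vw φ g w := by
    intro x
    simp only [vw, h1, dv_id]
    rw [Finset.prod_univ_sum, Fintype.piFinset_univ,
      ← ((Equiv.arrowCongr φ.symm (Equiv.refl G')).trans (Equiv.curry V (Fin 3) G')).sum_comp]
    refine Finset.sum_congr rfl (fun w _ => ?_)
    rw [← prod_edge (fun d => M (x d.1) (w d)), prod_vert φ, ← Finset.prod_mul_distrib]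
    rfl
  simp only [ZM, h2]
  rw [Finset.sum_comm]
  refine Finset.sum_congr rfl (fun w _ => ?_)
  rw [← Finset.sum_mul, Finset.prod_univ_sum, Fintype.piFinset_univ]

lemma sum_graph {A B : Type} [Fintype A] [Fintype B] (j : A → B) (hj : Injective j) (F : B → ℤ) :
    ∑ w, ind (w ∈ Set.range j) * F w = ∑ x, F (j x) := by
  classical
  refine Eq.trans ?_ (Finset.sum_map Finset.univ ⟨j, hj⟩ F)
  symm
  refine (Finset.sum_congr rfl (fun w hw => ?_)).trans (Finset.sum_subset (Finset.subset_univ _)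
    (fun w _ hw => ?_))
  · rw [ind_pos (by simpa using hw), one_mul]
  · rw [ind_neg (by simpa using hw), zero_mul]

lemma collapse [Fintype G] (ι : G → G) (F : (E × Bool → G) → ℤ) :
    ∑ w : E × Bool → G, (∏ e, ind (w (e, true) = ι (w (e, false)))) * F w =
      ∑ x : E → G, F (dv ι x) := by
  rw [← sum_graph (dv ι) (fun x y h => funext fun e => congrFun h (e, false))]
  refine Finset.sum_congr rfl (fun w _ => ?_)
  rw [← ind_forall]
  congr 1
  refine ind_congr ⟨fun h => ⟨fun e => w (e, false), ?_⟩, ?_⟩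
  · funext ⟨e, b⟩
    cases b
    · rfl
    · exact (h e).symm
  · rintro ⟨x, rfl⟩ e
    rfl

lemma ZM_change' [Fintype G] [Fintype G'] [DecidableEq G'] (φ : V × Fin 3 ≃ E × Bool)
    (f : G → G → G → ℤ) (g : G' → G' → G' → ℤ) (M : G → G' → ℤ) (k : ℤ)
    (h : ∀ a b c, f a b c = ∑ p, M a p * ∑ q, M b q * ∑ r, M c r * g p q r)
    (hM : ∀ p q, ∑ a, M a p * M a q = k * dd q p) :
    ZM φ id f = k ^ Fintype.card E * ZM φ id g := by
  rw [ZM_change φ f g M h, ZM, ← collapse, Finset.mul_sum]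
  refine Finset.sum_congr rfl (fun w _ => ?_)
  simp only [hM, Finset.prod_mul_distrib, Finset.prod_const, Finset.card_univ, id, ind_eq,
    mul_assoc]

variable {σ : Equiv.Perm (E × Bool)} {φ : V × Fin 3 ≃ E × Bool}

lemma tau_sum [Fintype K] [DecidableEq K] (h : Pres σ φ) (F : (E × Bool → K × K) → ℤ) :
    ∑ w, F w * vw φ tau w = ∑ y : E × Bool → K, F (fun d => (y (σ.symm d), y d)) := by
  rw [← sum_graph (fun (y : E × Bool → K) d => (y (σ.symm d), y d))
    (fun x y h => funext fun d => congrArg Prod.snd (congrFun h d))]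
  refine Finset.sum_congr rfl (fun w _ => ?_)
  rw [mul_comm]
  congr 1
  rw [vw]
  simp only [tau]
  rw [← h.prod (fun a b => dd (w a).2 (w b).1)]
  simp only [← ind_eq]
  rw [← ind_forall]
  refine ind_congr ⟨fun h => ⟨fun d => (w d).2, funext fun d => Prod.ext ?_ rfl⟩, ?_⟩
  · simpa using h (σ.symm d)
  · rintro ⟨y, rfl⟩ d
    simp

lemma paired_iff (s : E → Bool) (y : E × Bool → K) :
    (∀ a b, paired σ s a b → y a = y b) ↔ ∀ e, cond (s e)
      (y (σ.symm (e, false)) = y (σ.symm (e, true)) ∧ y (e, false) = y (e, true))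
      (y (σ.symm (e, false)) = y (e, true) ∧ y (e, false) = y (σ.symm (e, true))) := by
  constructor
  · intro h e
    cases hs : s e
    · exact ⟨(h _ _ (Or.inl ⟨hs, by simp [opp]⟩)).symm, h _ _ (Or.inl ⟨hs, by simp [opp]⟩)⟩
    · exact ⟨h _ _ (Or.inr (Or.inr ⟨by simpa using hs, by simp [opp]⟩)),
        h _ _ (Or.inr (Or.inl ⟨hs, rfl⟩))⟩
  · rintro h a b (⟨h1, h2⟩ | ⟨h1, rfl⟩ | ⟨h1, h2⟩)
    · obtain ⟨e, c⟩ := a
      have h3 := h e
      rw [show s e = false from h1] at h3
      rw [← Equiv.eq_symm_apply] at h2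
      subst h2
      cases c
      · exact h3.2
      · exact h3.1.symm
    · obtain ⟨e, c⟩ := a
      have h3 := h e
      rw [show s e = true from h1] at h3
      cases c
      · exact h3.2
      · exact h3.2.symm
    · obtain ⟨⟨e, c⟩, rfl⟩ := σ.symm.surjective a
      rw [Equiv.apply_symm_apply] at h1 h2
      have h3 := h e
      rw [show s e = true from h1] at h3
      rw [← Equiv.eq_symm_apply] at h2
      subst h2
      cases c
      · exact h3.1
      · exact h3.1.symm

lemma ZM_penrose (h : Pres σ φ) (N : ℕ) :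
    ZM φ id (fv (K := Fin N)) = (-2) ^ Fintype.card E * penrose σ N := by
  rw [ZM_change φ fv tau fa (fun a b c => by simp only [sum_fa, fv]; ring), tau_sum h]
  have e : ∀ p q : Fin N × Fin N, ∑ a, fa a p * fa a q = 2 * fa p q := fun p q => by
    simp only [fun u => fa_comm u p]
    rw [sum_fa p (fun u => fa u q), fa_swap]
    ring
  have e2 : ∀ s : E → Bool, (N : ℤ) ^ classes (paired σ s) =
      ∑ y : E × Bool → Fin N, ind (∀ a b, paired σ s a b → y a = y b) := fun s => by
    rw [sum_inv, Fintype.card_fin]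
  simp only [e, penrose, e2, Finset.mul_sum]
  rw [Finset.sum_comm]
  refine Finset.sum_congr rfl (fun y _ => ?_)
  have e3 : ∀ s : E → Bool, (-1 : ℤ) ^ (Finset.univ.filter (fun e => s e = true)).card =
      ∏ e, cond (s e) (-1) 1 := fun s => by
    simp only [Bool.cond_eq_ite, Finset.prod_ite, Finset.prod_const, one_pow, mul_one]
  simp only [paired_iff, ind_forall, e3, ← Finset.card_univ, ← Finset.prod_const,
    ← Finset.prod_mul_distrib]
  rw [← Fintype.piFinset_univ, ← Finset.prod_univ_sum (fun _ => Finset.univ)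
    (fun e (b : Bool) => -2 * (cond b (-1 : ℤ) 1 * ind (cond b
      (y (σ.symm (e, false)) = y (σ.symm (e, true)) ∧ y (e, false) = y (e, true))
      (y (σ.symm (e, false)) = y (e, true) ∧ y (e, false) = y (σ.symm (e, true))))))]
  refine Finset.prod_congr rfl (fun e _ => ?_)
  simp only [Fintype.sum_bool, cond_true, cond_false, ind_and, ind_eq, fa]
  ring

lemma ZM_faces [Fintype K] [DecidableEq K] (h : Pres σ φ) : ZM φ Prod.swap (tau (K := K)) =
    (Fintype.card K : ℤ) ^ classes (fun a b => σ b = opp a) := by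
  rw [ZM, ← collapse, tau_sum h, ← sum_inv]
  refine Finset.sum_congr rfl (fun y _ => ?_)
  rw [← ind_forall]
  have := paired_iff (σ := σ) (fun _ => false) y
  simp only [paired, true_and, Bool.false_eq_true, false_and, or_false, cond_false] at this
  refine ind_congr (Iff.trans ?_ this.symm)
  simp only [Prod.swap_prod_mk, Prod.mk.injEq]
  exact forall_congr' (fun e => ⟨fun h => ⟨h.2.symm, h.1.symm⟩, fun h => ⟨h.2.symm, h.1.symm⟩⟩)

def allq [DecidableEq K] (a b c : K) : ℤ := dd a b * dd b c * dd c a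

lemma ZM_comp [Fintype K] [DecidableEq K] (h : Pres σ φ) : ZM φ id (allq (K := K)) =
    (Fintype.card K : ℤ) ^ classes (fun a b => b = σ a ∨ b = opp a) := by
  rw [ZM, ← collapse, ← sum_inv]
  refine Finset.sum_congr rfl (fun y _ => ?_)
  rw [vw]
  simp only [allq]
  rw [← h.prod (fun a b => dd (y a) (y b))]
  simp only [← ind_eq]
  rw [← ind_forall, ← ind_forall, ← ind_and]
  refine ind_congr ⟨?_, fun h => ⟨fun e => (h (e, false) _ (Or.inr rfl)).symm, fun d => h _ _ (Or.inl rfl)⟩⟩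
  rintro ⟨h1, h2⟩ ⟨e, c⟩ b (rfl | rfl)
  · exact h2 _
  · cases c
    · exact (h1 e).symm
    · exact h1 e

def dist3 (a b c : Fin 3) : ℤ := (1 - dd a b) * (1 - dd b c) * (1 - dd c a)

lemma vw_dist3 (h : Pres σ φ) (c : E → Fin 3) :
    vw φ dist3 (dv id c) = ind (∀ d : E × Bool, c d.1 ≠ c (σ d).1) := by
  simp only [vw, dist3, dv_id]
  rw [← h.prod (fun a b => 1 - dd (c a.1) (c b.1)), ind_forall]
  refine Finset.prod_congr rfl (fun d _ => ?_)
  by_cases e : c d.1 = c (σ d).1 <;> simp [e, ind, dd]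

lemma ZM_col (hc : Cubic σ) (h : Pres σ φ) (hl : ∀ d : E × Bool, d.1 ≠ (σ d).1) :
    ZM φ id dist3 = colourings σ := by
  simp only [ZM, vw_dist3 h]
  rw [colourings, ← sum_ind]
  refine Finset.sum_congr rfl (fun c _ => ind_congr ⟨?_, fun h d => h _ _ ⟨1, rfl⟩ (hl d)⟩)
  rintro h1 a b ⟨i, rfl⟩ hne
  have h3 : σ ^ (3 : ℤ) = 1 := by
    ext1 d
    exact (hc d).2
  have hi : σ ^ i = σ ^ (i % 3) := by
    conv_lhs => rw [← Int.mul_ediv_add_emod i 3, zpow_add, zpow_mul, h3, one_zpow, one_mul]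
  rw [hi] at hne ⊢
  have : i % 3 = 0 ∨ i % 3 = 1 ∨ i % 3 = 2 := by omega
  rcases this with e | e | e <;> rw [e] at hne ⊢
  · exact absurd rfl hne
  · exact h1 a
  · have := h1 (σ (σ a))
    rw [(hc a).2] at this
    exact this.symm

lemma ZM_loop [Fintype K] [DecidableEq K] (h : Pres σ φ) (d : E × Bool) (hl : d.1 = (σ d).1) :
    ZM φ id (fv (K := K)) = 0 := by
  refine Finset.sum_eq_zero (fun x _ => ?_)
  obtain ⟨⟨v, i⟩, rfl⟩ := φ.surjective d
  rw [← h] at hl
  refine Finset.prod_eq_zero (Finset.mem_univ v) ?_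
  simp only [dv_id]
  fin_cases i
  · rw [show (φ (v, 0)).1 = (φ (v, 1)).1 from hl, fv_self]
  · rw [show (φ (v, 1)).1 = (φ (v, 2)).1 from hl, fv_rot, fv_self]
  · rw [show (φ (v, 2)).1 = (φ (v, 0)).1 from hl, ← fv_rot, fv_self]

omit [Fintype E] [DecidableEq E] in
/-- The list of vertices of an (open) map. -/
noncomputable def vlist {α : Type} (φ : V × Fin 3 ≃ D) (n : D → α) : List (Tri α) :=
  (Finset.univ : Finset V).toList.map (fun v => (n (φ (v, 0)), n (φ (v, 1)), n (φ (v, 2))))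

omit [Fintype E] [DecidableEq E] in
lemma val_vlist {α : Type} [DecidableEq K] (φ : V × Fin 3 ≃ D) (n : D → α) (x : α → K × K) :
    val (vs (vlist φ n)) x = vw φ fv (x ∘ n) := by
  simp only [val, vs, vlist, List.map_map, vw]
  rw [Finset.prod_map_toList]
  exact Finset.prod_congr rfl (fun v _ => sem_V _ _ _ _)

omit [Fintype E] [DecidableEq E] in
lemma oc_vlist {α : Type} [Fintype D] (φ : V × Fin 3 ≃ D) (n : D → α) :
    oc (vs (vlist φ n)) = ∑ d, {n d} := by
  simp only [oc, vs, vlist, List.map_map]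
  rw [Finset.sum_map_toList, ← φ.sum_comp, Fintype.sum_prod_type]
  refine Finset.sum_congr rfl (fun v _ => ?_)
  simp only [Fin.sum_univ_three, comp_apply, Fac.oc, Multiset.insert_eq_cons,
    ← Multiset.singleton_add, add_assoc]

lemma ZM_nine (φ : V × Fin 3 ≃ E × Bool) :
    ZM φ id (fv (K := Fin 8)) = W (vlist φ Prod.fst) ∧ Cl (oc (vs (vlist φ Prod.fst))) ∧
      (vlist φ Prod.fst).length = Fintype.card V := by
  refine ⟨Finset.sum_congr rfl (fun x _ => ?_), fun e => Or.inr ?_, by simp [vlist]⟩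
  · rw [val_vlist]
    congr 1
    funext d
    exact dv_id x d
  · rw [oc_vlist, Multiset.count_sum', Fintype.sum_prod_type]
    simp [Multiset.count_singleton]

end Pool.Agent.Lib.P41
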