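import Pool.Agent.Lib.P41.Fam2

set_option autoImplicit false

namespace Pool.Agent.Lib.P41

open Pool.Agent.Lib.MP_daa8b9_co Matrix

variable {n : ℕ}

lemma fermat_mat (R P0 : Matrix (Fin n) (Fin n) ℤ) (L : List (ℤ × Matrix (Fin n) (Fin n) ℤ))
    (h0 : R * P0 = 0) (hL : ∀ t ∈ L, R * t.2 = t.1 • t.2) (p : ℕ) (hp : p.Prime)
    (hc : ∀ t ∈ L, IsCoprime t.1 (p : ℤ)) :
    ∃ X, R ^ (p - 1) * (P0 + (L.map Prod.snd).sum) = (L.map Prod.snd).sum + (p : ℤ) • X := by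
  induction L with
  | nil =>
    obtain ⟨k, hk⟩ : ∃ k, p - 1 = k + 1 := ⟨p - 2, by have := hp.two_le; omega⟩
    exact ⟨0, by simp [hk, pow_succ, mul_assoc, h0]⟩
  | cons t L ih =>
    obtain ⟨X, hX⟩ := ih (fun t ht => hL t (List.mem_cons_of_mem _ ht))
      (fun t ht => hc t (List.mem_cons_of_mem _ ht))
    have h1 : ∀ k : ℕ, R ^ k * t.2 = t.1 ^ k • t.2 := by
      intro k
      induction k with
      | zero => simp
      | succ k ihk =>
        rw [pow_succ', mul_assoc, ihk, Matrix.mul_smul, hL t (by simp), smul_smul, pow_succ]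
    obtain ⟨c, hc'⟩ := (Int.ModEq.pow_card_sub_one_eq_one hp (hc t (by simp))).symm.dvd
    refine ⟨X + c • t.2, ?_⟩
    rw [List.map_cons, List.sum_cons, add_left_comm, mul_add, hX, h1,
      show t.1 ^ (p - 1) = 1 + p * c by omega, add_smul, one_smul, smul_add, smul_smul]
    abel

lemma vec_rep (R O : Matrix (Fin n) (Fin n) ℤ) (v : Fin n → ℤ) (k : ℕ) (w : List Bool) :
    vec R O v (List.replicate k true ++ w) = R ^ k *ᵥ vec R O v w := by
  induction k with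
  | zero => simp
  | succ k ih => rw [List.replicate_succ, List.cons_append, vec, ih, mulVec_mulVec, pow_succ']

def wd (k : ℕ) : List Bool :=
  List.replicate k true ++ ([false, true, false, true, false, true, false] ++
    (List.replicate k true ++ []))

lemma vec_wd (R O P0 : Matrix (Fin n) (Fin n) ℤ) (L : List (ℤ × Matrix (Fin n) (Fin n) ℤ))
    (h0 : R * P0 = 0) (hL : ∀ t ∈ L, R * t.2 = t.1 • t.2)
    (hs : P0 + (L.map Prod.snd).sum = (6 : ℤ) • 1) (p : ℕ) (hp : p.Prime)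
    (hc : ∀ t ∈ L, IsCoprime t.1 (p : ℤ)) (a : ℤ) (v u c : Fin n → ℤ) (hv : a • v = R *ᵥ u) :
    36 * a * (c ⬝ᵥ R *ᵥ vec R O v (wd (p - 2))) ≡ c ⬝ᵥ (L.map Prod.snd).sum *ᵥ (O *ᵥ (R *ᵥ (O *ᵥ
      (R *ᵥ (O *ᵥ (R *ᵥ (O *ᵥ ((L.map Prod.snd).sum *ᵥ u)))))))) [ZMOD p] := by
  obtain ⟨X, hX⟩ := fermat_mat R P0 L h0 hL p hp hc
  rw [hs, Matrix.mul_smul, mul_one, show p - 1 = p - 2 + 1 by have := hp.two_le; omega] at hX
  have e : 36 * a * (c ⬝ᵥ R *ᵥ vec R O v (wd (p - 2))) =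
      c ⬝ᵥ ((6 : ℤ) • R ^ (p - 2 + 1)) *ᵥ (O *ᵥ (R *ᵥ (O *ᵥ
      (R *ᵥ (O *ᵥ (R *ᵥ (O *ᵥ (((6 : ℤ) • R ^ (p - 2 + 1)) *ᵥ u)))))))) := by
    rw [wd, vec_rep, mulVec_mulVec, ← pow_succ']
    simp only [List.cons_append, List.nil_append, vec, vec_rep]
    rw [smul_mulVec _ _ u, pow_succ R (p - 2), ← mulVec_mulVec u, ← hv]
    simp only [smul_mulVec, mulVec_smul, dotProduct_smul, smul_eq_mul]
    ring
  rw [e, hX]
  simp only [add_mulVec, mulVec_add, smul_mulVec, mulVec_smul, dotProduct_add, dotProduct_smul,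
    smul_eq_mul, smul_add]
  refine (Int.modEq_iff_dvd.2 ?_).symm
  rw [add_assoc, add_sub_cancel_left]
  exact dvd_add (dvd_mul_right _ _) (dvd_add (dvd_mul_right _ _) (dvd_mul_right _ _))

lemma cop (p : ℕ) (hp : p.Prime) (h7 : 7 ≤ p) (m : ℤ) (hm : m ∣ 30 ^ 20) :
    IsCoprime m (p : ℤ) := by
  have h : Nat.Coprime 30 p := by
    rw [Nat.coprime_comm, hp.coprime_iff_not_dvd]
    intro h
    have := Nat.le_of_dvd (by norm_num) h
    interval_cases p <;> first | omega | norm_num at hp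
  exact ((Nat.isCoprime_iff_coprime.2 h).pow_left (m := 20)).of_isCoprime_of_dvd_left hm

lemma fval_wd (p : ℕ) (hp : p.Prime) (h7 : 7 ≤ p) : (p : ℤ) ∣ fval (wd (p - 2)) := by
  have h := vec_wd RF OF 0 [(2, !![2, 0, 4, 0; 0, 0, 0, 0; 2, 0, 4, 0; 0, 0, 0, 0]),
    (1, !![0, 0, 0, 0; 0, 3, 0, 3; 0, 0, 0, 0; 0, 3, 0, 3]),
    (-1, !![4, 0, -4, 0; 0, 3, 0, -3; -2, 0, 2, 0; 0, -3, 0, 3])] (by decide +kernel)
    (by decide +kernel) (by decide +kernel) p hp (by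
      simp only [List.forall_mem_cons, List.not_mem_nil, false_imp_iff, imp_true_iff, and_true]
      exact ⟨cop p hp h7 _ (by norm_num), cop p hp h7 _ (by norm_num), cop p hp h7 _ (by norm_num)⟩)
    1 ![0, 0, 1, 1] ![1, 1, 0, 0] ![3, 6, 0, 0] (by decide +kernel)
  have e : ![3, 6, 0, 0] ⬝ᵥ RF *ᵥ vec RF OF ![0, 0, 1, 1] (wd (p - 2)) = fval (wd (p - 2)) := by
    rw [dotProduct_mulVec, fval, dotProduct_comm]
    congr 1
    decide +kernel
  rw [e] at h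
  replace h : 36 * 1 * fval (wd (p - 2)) ≡ 0 [ZMOD p] := h.trans (congrArg (· % _) (by
    decide +kernel))
  exact (cop p hp h7 (36 * 1) (by norm_num)).symm.dvd_of_dvd_mul_left
    (Int.modEq_zero_iff_dvd.1 h)

lemma zval_wd (p : ℕ) (hp : p.Prime) (h7 : 7 ≤ p) : ¬ (p : ℤ) ∣ zval (wd (p - 2)) := by
  have h := vec_wd RP OP !![3, -3, 0, 1, -1; -3, 3, 0, -1, 1; 0, 0, 0, 0, 0; 0, 0, 0, 0, 0;
      0, 0, 0, 0, 0]
    [(48, !![0, 0, 6, 0, 0; 0, 0, 6, 0, 0; 0, 0, 6, 0, 0; 0, 0, -24, 0, 0; 0, 0, -24, 0, 0]),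
    (40, !![0, 0, -8, -1, -1; 0, 0, -8, -1, -1; 0, 0, 0, 0, 0; 0, 0, 24, 3, 3; 0, 0, 24, 3, 3]),
    (24, !![0, 0, 0, -1, 1; 0, 0, 0, 1, -1; 0, 0, 0, 0, 0; 0, 0, 0, 3, -3; 0, 0, 0, -3, 3]),
    (-32, !![3, 3, 2, 1, 1; 3, 3, 2, 1, 1; 0, 0, 0, 0, 0; 0, 0, 0, 0, 0; 0, 0, 0, 0, 0])]
    (by decide +kernel) (by decide +kernel) (by decide +kernel) p hp (by
      simp only [List.forall_mem_cons, List.not_mem_nil, false_imp_iff, imp_true_iff, and_true]
      exact ⟨cop p hp h7 _ (by norm_num), cop p hp h7 _ (by norm_num), cop p hp h7 _ (by norm_num),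
        cop p hp h7 _ (by norm_num)⟩)
    4 ![0, -192, 192, -576, 0] ![16, 16, 16, -64, 32] ![1, 0, 0, 0, 0] (by decide +kernel)
  have e : ![1, 0, 0, 0, 0] ⬝ᵥ RP *ᵥ vec RP OP ![0, -192, 192, -576, 0] (wd (p - 2)) =
      4 * zval (wd (p - 2)) := by
    rw [dotProduct_mulVec, zval, ← smul_eq_mul, ← smul_dotProduct]
    congr 1
    decide +kernel
  rw [e] at h
  replace h : 36 * 4 * (4 * zval (wd (p - 2))) ≡ -5898240 [ZMOD p] :=
    h.trans (congrArg (· % _) (by decide +kernel))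
  intro hd
  have h1 : (p : ℤ) ∣ -5898240 := by
    have := dvd_add h.dvd ((hd.mul_left 4).mul_left (36 * 4))
    rwa [sub_add_cancel] at this
  have h2 := (cop p hp h7 (-5898240) (by norm_num)).symm.isUnit_of_dvd h1
  rw [Int.isUnit_iff] at h2
  omega

/-- For `q` one of 16, 25, 27 or a prime at least 7 there is a counterexample modulo `q`. -/
theorem negative (q : ℕ) (hq : q = 16 ∨ q = 25 ∨ q = 27 ∨ (q.Prime ∧ 7 ≤ q)) :
    ∃ (E : Type) (_ : Fintype E) (_ : DecidableEq E) (σ : Equiv.Perm (E × Bool)),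
      Cubic σ ∧ Connected σ ∧ Plane σ ∧ q ∣ colourings σ ∧ ¬ (q : ℤ) ∣ penrose σ (-1) := by
  have key : ∀ w : List Bool, (q : ℤ) ∣ fval w →
      (∀ P : ℤ, (-2) ^ (3 * w.count true + 6) * P = zval w → ¬ (q : ℤ) ∣ P) →
      ∃ (E : Type) (_ : Fintype E) (_ : DecidableEq E) (σ : Equiv.Perm (E × Bool)),
      Cubic σ ∧ Connected σ ∧ Plane σ ∧ q ∣ colourings σ ∧ ¬ (q : ℤ) ∣ penrose σ (-1) := by
    intro w h1 h2
    obtain ⟨E, i1, i2, σ, a, b, c, d, e⟩ := word_map w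
      (fun h => h2 0 (by rw [h, mul_zero]) (dvd_zero _))
    exact ⟨E, i1, i2, σ, a, b, c, by rw [← d] at h1; exact_mod_cast h1, h2 _ e⟩
  rcases hq with rfl | rfl | rfl | ⟨hp, h7⟩
  · refine key [true, true, false, true, false, true, true, false, true, false, true, true]
      (by decide +kernel) (fun P h => ?_)
    rw [show zval _ = (-2) ^ 30 * 4907448 by decide +kernel] at h
    rw [mul_left_cancel₀ (by norm_num) h]
    norm_num
  · refine key [true, true, false, true, true, true, true, true]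
      (by decide +kernel) (fun P h => ?_)
    rw [show zval _ = (-2) ^ 27 * (-2286630) by decide +kernel] at h
    rw [mul_left_cancel₀ (by norm_num) h]
    norm_num
  · refine key [true, true, true, false, true, true] (by decide +kernel) (fun P h => ?_)
    rw [show zval _ = (-2) ^ 21 * (-78966) by decide +kernel] at h
    rw [mul_left_cancel₀ (by norm_num) h]
    norm_num
  · exact key (wd (q - 2)) (fval_wd q hp h7)
      (fun P h hd => zval_wd q hp h7 (h ▸ hd.mul_left _))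

lemma bad_divisor (n : ℕ) (h : ¬ n ∣ 360) :
    ∃ q, q ∣ n ∧ (q = 16 ∨ q = 25 ∨ q = 27 ∨ (q.Prime ∧ 7 ≤ q)) := by
  by_contra hc
  push Not at hc
  refine h ((Nat.dvd_iff_prime_pow_dvd_dvd 360 n).2 (fun p k hp hk => ?_))
  rcases Nat.eq_zero_or_pos k with rfl | hk0
  · simp
  have h1 := (hc p ((dvd_pow_self p hk0.ne').trans hk)).2.2.2 hp
  have h2 : ∀ j, p ^ j = 16 ∨ p ^ j = 25 ∨ p ^ j = 27 → k < j := fun j hj => by
    by_contra hlt
    have := hc _ ((pow_dvd_pow p (not_lt.1 hlt)).trans hk)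
    tauto
  have := hp.two_le
  interval_cases p
  · exact (pow_dvd_pow 2 (Nat.lt_succ_iff.1 (h2 4 (by norm_num)))).trans (by norm_num)
  · exact (pow_dvd_pow 3 (Nat.lt_succ_iff.1 (h2 3 (by norm_num)))).trans (by norm_num)
  · norm_num at hp
  · exact (pow_dvd_pow 5 (Nat.lt_succ_iff.1 (h2 2 (by norm_num)))).trans (by norm_num)
  · norm_num at hp

end Pool.Agent.Lib.P41
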