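import Pool.Agent.Lib.P41.Fac

set_option autoImplicit false

namespace Pool.Agent.Lib.P41

open Function

variable {α K G : Type} [DecidableEq K]

abbrev Tri (α : Type) := α × α × α

def vs (R : List (Tri α)) : List (Fac α) := R.map (fun t => Fac.V t.1 t.2.1 t.2.2)

lemma val_cons (t : Tri α) (R : List (Tri α)) (x : α → K × K) :
    val (vs (t :: R)) x = fv (x t.1) (x t.2.1) (x t.2.2) * val (vs R) x := by
  simp only [val, vs, List.map_cons, List.prod_cons, sem_V]

lemma oc_cons (t : Tri α) (R : List (Tri α)) :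
    oc (vs (t :: R)) = {t.1, t.2.1, t.2.2} + oc (vs R) := by
  simp only [oc, vs, List.map_cons, List.sum_cons, Fac.oc]

lemma val_perm {R R' : List (Tri α)} (h : R.Perm R') (x : α → K × K) :
    val (vs R) x = val (vs R') x := ((h.map _).map _).prod_eq

lemma oc_perm {R R' : List (Tri α)} (h : R.Perm R') : oc (vs R) = oc (vs R') :=
  ((h.map _).map _).sum_eq

lemma val_congr (R : List (Tri α)) {x y : α → K × K} (h : ∀ v ∈ oc (vs R), x v = y v) :
    val (vs R) x = val (vs R) y := by
  induction R with
  | nil => rfl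
  | cons t R ih =>
    rw [oc_cons] at h
    rw [val_cons, val_cons, ih (fun v hv => h v (Multiset.mem_add.2 (Or.inr hv))),
      h t.1 (by simp), h t.2.1 (by simp), h t.2.2 (by simp)]

def mp (s : α → α) (R : List (Tri α)) : List (Tri α) := R.map (fun t => (s t.1, s t.2.1, s t.2.2))

lemma val_mp (s : α → α) (R : List (Tri α)) (x : α → K × K) :
    val (vs (mp s R)) x = val (vs R) (x ∘ s) := by
  induction R with
  | nil => rfl
  | cons t R ih => rw [val_cons, ← ih]; exact val_cons _ _ _

lemma oc_mp (s : α → α) (R : List (Tri α)) : oc (vs (mp s R)) = (oc (vs R)).map s := by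
  induction R with
  | nil => rfl
  | cons t R ih =>
    rw [oc_cons, Multiset.map_add, ← ih]
    exact (oc_cons _ _).trans (by simp [mp])

lemma sum_fa [Fintype K] (p : K × K) (F : K × K → ℤ) :
    ∑ u, fa p u * F u = F p - F p.swap := by
  have h : ∀ u : K × K, fa p u = (if p = u then 1 else 0) - (if p.swap = u then 1 else 0) := by
    intro u
    simp only [fa, dd, Prod.ext_iff, Prod.fst_swap, Prod.snd_swap, ite_and]
    split_ifs <;> simp
  simp only [h, sub_mul, Finset.sum_sub_distrib, ite_mul, one_mul, zero_mul, Finset.sum_ite_eq,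
    Finset.mem_univ, if_true]

variable [DecidableEq α]

lemma val_anti (b : α) (R : List (Tri α)) (h : (oc (vs R)).count b = 1) (x : α → K × K)
    (u : K × K) : val (vs R) (update x b u.swap) = - val (vs R) (update x b u) := by
  induction R with
  | nil => simp [vs, oc] at h
  | cons t R ih =>
    obtain ⟨p, q, r⟩ := t
    rw [oc_cons] at h
    simp only [Multiset.insert_eq_cons, Multiset.count_add, Multiset.count_cons,
      Multiset.count_singleton] at h
    rw [val_cons, val_cons]
    by_cases hb : b ∈ oc (vs R)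
    · have h1 := Multiset.count_pos.2 hb
      have h2 : p ≠ b ∧ q ≠ b ∧ r ≠ b := by
        refine ⟨?_, ?_, ?_⟩ <;> rintro rfl <;> simp at h <;> omega
      rw [ih (by split_ifs at h <;> omega)]
      simp only [update_of_ne h2.1, update_of_ne h2.2.1, update_of_ne h2.2.2]
      ring
    · rw [Multiset.count_eq_zero.2 hb] at h
      rw [val_congr R (y := update x b u) (fun v hv => by
        rw [update_of_ne (by rintro rfl; exact hb hv), update_of_ne (by rintro rfl; exact hb hv)])]
      have : fv (update x b u.swap p) (update x b u.swap q) (update x b u.swap r) =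
          - fv (update x b u p) (update x b u q) (update x b u r) := by
        have h0 : (b = p ∧ ¬ b = q ∧ ¬ b = r) ∨ (b = q ∧ ¬ b = p ∧ ¬ b = r) ∨
            (b = r ∧ ¬ b = p ∧ ¬ b = q) := by
          split_ifs at h <;> first | omega | tauto
        rcases h0 with ⟨rfl, h2, h3⟩ | ⟨rfl, h2, h3⟩ | ⟨rfl, h2, h3⟩ <;>
          simp only [update_self, update_of_ne (Ne.symm h2), update_of_ne (Ne.symm h3)]
        · exact fv_swap _ _ _
        · rw [fv_rot, fv_swap, ← fv_rot]
        · rw [← fv_rot, fv_swap, fv_rot]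
      rw [this]
      ring

lemma val_swap (R : List (Tri α)) (t : Tri α) (ht : t ∈ R) (u v : α) (huv : u ≠ v)
    (hu : (oc (vs R)).count u = 1) (hv : (oc (vs R)).count v = 1)
    (hu' : u ∈ ({t.1, t.2.1, t.2.2} : Multiset α)) (hv' : v ∈ ({t.1, t.2.1, t.2.2} : Multiset α))
    (x : α → K × K) : val (vs R) (x ∘ Equiv.swap u v) = - val (vs R) x := by
  classical
  have hp := List.perm_cons_erase ht
  rw [oc_perm hp, oc_cons, Multiset.count_add] at hu hv
  have h1 := Multiset.count_pos.2 hu'
  have h2 := Multiset.count_pos.2 hv'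
  have h3 : u ∉ oc (vs (R.erase t)) := Multiset.count_eq_zero.1 (by omega)
  have h4 : v ∉ oc (vs (R.erase t)) := Multiset.count_eq_zero.1 (by omega)
  rw [val_perm hp, val_perm hp, val_cons, val_cons, val_congr (R.erase t) (y := x) (fun w hw => by
    rw [comp_apply, Equiv.swap_apply_of_ne_of_ne (by rintro rfl; exact h3 hw)
      (by rintro rfl; exact h4 hw)]), ← neg_mul]
  congr 1
  have h5 : ({t.1, t.2.1, t.2.2} : Multiset α).count u = 1 := by omega
  have h6 : ({t.1, t.2.1, t.2.2} : Multiset α).count v = 1 := by omega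
  clear hu hv h1 h2 h3 h4 hp ht
  obtain ⟨p, q, r⟩ := t
  have key : ∀ w, ¬ u = w → ¬ v = w → Equiv.swap u v w = w := fun w h5 h6 =>
    Equiv.swap_apply_of_ne_of_ne (Ne.symm h5) (Ne.symm h6)
  have hvu := huv.symm
  simp only [Multiset.insert_eq_cons, Multiset.mem_cons, Multiset.mem_singleton,
    Multiset.count_cons, Multiset.count_singleton, comp_apply] at hu' hv' h5 h6 ⊢
  rcases hu' with rfl | rfl | rfl <;> rcases hv' with rfl | rfl | rfl <;>
    first
    | exact absurd rfl huv
    | (simp [huv, hvu] at h5 h6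
       rw [Equiv.swap_apply_left, Equiv.swap_apply_right, key _ h5 h6]
       first
       | exact fv_flip _ _ _
       | rw [fv_rot, fv_flip, ← fv_rot]
       | rw [← fv_rot, fv_flip, fv_rot])

lemma Cl.subst {M : Multiset α} {a b : α} (h : Cl (M + {a, b})) (hab : a ≠ b) :
    Cl (M.map (update id b a)) := by
  intro v
  have e : (M.map (update id b a)).count v =
      if v = b then 0 else if v = a then M.count a + M.count b else M.count v := by
    clear h
    induction M using Multiset.induction_on with
    | empty => simp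
    | cons z M ih =>
      rw [Multiset.map_cons, Multiset.count_cons, ih, Multiset.count_cons,
        Multiset.count_cons, Multiset.count_cons, update_apply, id]
      by_cases h1 : v = b
      · subst h1
        by_cases h2 : z = v
        · simp [h2, hab.symm]
        · simp [h2, Ne.symm h2]
      · by_cases h2 : v = a
        · subst h2
          by_cases h3 : z = b
          · subst h3; simp [h1]; omega
          · simp [h1, h3, Ne.symm h3]; omega
        · by_cases h3 : z = b
          · subst h3; simp [h1, h2]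
          · simp [h1, h2, h3]
  have h1 := h a
  have h2 := h b
  have h3 := h v
  simp only [Multiset.insert_eq_cons, Multiset.count_add, Multiset.count_cons,
    Multiset.count_singleton, if_true, hab, hab.symm, if_false] at h1 h2 h3
  rw [e]
  split_ifs at h3 ⊢ <;> omega

variable [Fintype α]

lemma sum_update [Fintype G] (F : (α → G) → ℤ) (b : α) :
    (Fintype.card G : ℤ) * ∑ x, F x = ∑ x, ∑ u, F (update x b u) := by
  rw [← Fintype.sum_prod_type', ← Equiv.sum_comp (Involutive.toPerm
    (fun p : (α → G) × G => (update p.1 b p.2, p.1 b)) (fun p => by simp)),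
    Fintype.sum_prod_type]
  simp [Finset.mul_sum]

abbrev G8 := Fin 8 × Fin 8

lemma elimA (a b : α) (hab : a ≠ b) (F : (α → G8) → ℤ)
    (hF : ∀ x u, F (update x b (Prod.swap u)) = - F (update x b u)) :
    64 * ∑ x, fa (x a) (x b) * F x = 2 * ∑ x, F (x ∘ update id b a) := by
  have h := sum_update (fun x : α → G8 => fa (x a) (x b) * F x) b
  rw [show (Fintype.card G8 : ℤ) = 64 by simp] at h
  rw [h, Finset.mul_sum]
  refine Finset.sum_congr rfl (fun x _ => ?_)
  simp only [update_self, update_of_ne hab]
  rw [sum_fa (x a) (fun u => F (update x b u)), hF, comp_update]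
  simp only [comp_id]
  ring

lemma three (L : List (Fac α)) (a b c : α) (h : Fac.V a b c ∈ L) : 3 ∣ Z 8 L := by
  obtain ⟨l, hl⟩ := exists_injective_nat (α × Bool)
  have h1 := (Z_ev 8 l hl L).of_dvd (m := 3) (by norm_num)
  have h2 := Z_ev 2 l hl L
  have h3 : Z 2 L = 0 := by
    refine Finset.sum_eq_zero (fun x _ => List.prod_eq_zero (List.mem_map.2 ⟨_, h, ?_⟩))
    rw [sem_V]
    exact (by decide : ∀ p q r : Fin 2 × Fin 2, fv p q r = 0) _ _ _
  rw [h3] at h2
  exact Int.modEq_zero_iff_dvd.1 (h1.trans h2.symm)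

def W (R : List (Tri α)) : ℤ := Z 8 (vs R)

def Sf (p q r s : K × K) : ℤ := fa p q * fa r s + fa p r * fa q s + fa p s * fa q r

def SW (R : List (Tri α)) (a b c d : α) : ℤ :=
  ∑ x : α → G8, val (vs R) x * Sf (x a) (x b) (x c) (x d)

lemma SW_s1 (R : List (Tri α)) (a b c d : α) : SW R a b c d = SW R b a c d :=
  Finset.sum_congr rfl (fun x _ => by simp only [Sf, fa_comm (x b) (x a)]; ring)

lemma SW_s2 (R : List (Tri α)) (a b c d : α) : SW R a b c d = SW R b c d a :=
  Finset.sum_congr rfl (fun x _ => by
    simp only [Sf, fa_comm (x b) (x a), fa_comm (x c) (x a), fa_comm (x d) (x a)]; ring)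

lemma three' (R : List (Tri α)) (hR : R ≠ []) (L : List (Fac α)) : 3 ∣ Z 8 (vs R ++ L) := by
  obtain ⟨t, ht⟩ := List.exists_mem_of_ne_nil R hR
  exact three _ t.1 t.2.1 t.2.2 (List.mem_append_left _ (List.mem_map.2 ⟨t, ht, rfl⟩))

lemma SW_co (R : List (Tri α)) (hR : R ≠ []) (a c d : α) (h : Cl (oc (vs R) + {a, a, c, d})) :
    9 ∣ SW R a a c d := by
  have h1 := h a
  simp only [Multiset.insert_eq_cons, Multiset.count_add, Multiset.count_cons,
    Multiset.count_singleton, if_true] at h1
  have h2 : a ∉ oc (vs R) := Multiset.count_eq_zero.1 (by omega)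
  have h3 : c ≠ a := by rintro rfl; simp at h1; omega
  have h4 : d ≠ a := by rintro rfl; simp at h1; omega
  have h5 := sum_update (fun x : α → G8 => val (vs R) x * Sf (x a) (x a) (x c) (x d)) a
  rw [show (Fintype.card G8 : ℤ) = 64 by simp] at h5
  have h6 : 64 * SW R a a c d = 60 * Z 8 (vs R ++ [Fac.A c d]) := by
    rw [SW, h5, Z, Finset.mul_sum]
    refine Finset.sum_congr rfl (fun x _ => ?_)
    have e : ∀ u, val (vs R) (update x a u) = val (vs R) x := fun u =>
      val_congr R (fun v hv => update_of_ne (by rintro rfl; exact h2 hv) _ _)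
    have e2 : ∑ u : G8, fa u u = 56 := by decide +kernel
    have e3 : ∑ u : G8, fa u (x c) * fa u (x d) = 2 * fa (x c) (x d) := by
      simp only [fun u => fa_comm u (x c)]
      rw [sum_fa (x c) (fun u => fa u (x d)), fa_swap]
      ring
    simp only [e, update_self, update_of_ne h3, update_of_ne h4, Sf, ← Finset.mul_sum,
      Finset.sum_add_distrib, ← Finset.sum_mul, e2, e3, fun u => mul_comm (fa u (x d))]
    simp only [val, List.map_append, List.prod_append, List.map_cons, List.map_nil, List.prod_cons,
      List.prod_nil, sem_A]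
    ring
  have h7 := three' R hR [Fac.A c d]
  omega

lemma SW_same (R : List (Tri α)) (t : Tri α) (ht : t ∈ R) (a b c d : α)
    (hn : ({a, b, c, d} : Multiset α).Nodup) (h : Cl (oc (vs R) + {a, b, c, d}))
    (ha : a ∈ ({t.1, t.2.1, t.2.2} : Multiset α)) (hb : b ∈ ({t.1, t.2.1, t.2.2} : Multiset α)) :
    9 ∣ SW R a b c d := by
  have h1 := h a
  have h2 := h b
  rw [Multiset.count_add, Multiset.count_eq_one_of_mem hn (by simp)] at h1 h2
  simp only [Multiset.insert_eq_cons, Multiset.nodup_cons, Multiset.mem_cons,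
    Multiset.mem_singleton, not_or] at hn
  have h3 : SW R b a c d = - SW R a b c d := by
    rw [SW, SW, ← Finset.sum_neg_distrib,
      ← (Equiv.arrowCongr (Equiv.swap a b) (Equiv.refl G8)).sum_comp]
    refine Finset.sum_congr rfl (fun x _ => ?_)
    have e : Equiv.arrowCongr (Equiv.swap a b) (Equiv.refl G8) x = x ∘ Equiv.swap a b := rfl
    rw [e, val_swap R t ht a b hn.1.1 (by omega) (by omega) ha hb]
    simp only [comp_apply, Equiv.swap_apply_left, Equiv.swap_apply_right,
      Equiv.swap_apply_of_ne_of_ne (Ne.symm hn.1.2.1) (Ne.symm hn.2.1.1),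
      Equiv.swap_apply_of_ne_of_ne (Ne.symm hn.1.2.2) (Ne.symm hn.2.1.2), neg_mul]
  rw [← SW_s1] at h3
  omega

lemma AA_nine (R : List (Tri α))
    (ih : ∀ R' : List (Tri α), R'.length = R.length → Cl (oc (vs R')) → 9 ∣ W R') (a b c d : α)
    (hn : ({a, b, c, d} : Multiset α).Nodup) (h : Cl (oc (vs R) + {a, b, c, d})) :
    9 ∣ ∑ x : α → G8, val (vs R) x * (fa (x a) (x b) * fa (x c) (x d)) := by
  have h2 := h b
  rw [Multiset.count_add, Multiset.count_eq_one_of_mem hn (by simp)] at h2
  simp only [Multiset.insert_eq_cons, Multiset.nodup_cons, Multiset.mem_cons,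
    Multiset.mem_singleton, not_or] at hn
  obtain ⟨⟨hab, hac, had⟩, ⟨hbc, hbd⟩, hcd, -⟩ := hn
  have c1 : Cl (oc (vs (mp (update id b a) R)) + {c, d}) := by
    have := Cl.subst (M := oc (vs R) + {c, d}) (a := a) (b := b) (by
      convert h using 1
      simp only [Multiset.insert_eq_cons, ← Multiset.singleton_add]; abel) hab
    rw [oc_mp]
    simpa [update_of_ne (Ne.symm hbc), update_of_ne (Ne.symm hbd)] using this
  have h4 := c1 d
  simp only [Multiset.insert_eq_cons, Multiset.count_add, Multiset.count_cons,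
    Multiset.count_singleton, if_true, Ne.symm hcd, if_false] at h4
  have c2 := c1.subst hcd
  rw [← oc_mp] at c2
  have h5 := ih _ (by simp [mp]) c2
  have e1 := elimA a b hab (fun x => fa (x c) (x d) * val (vs R) x) (fun x u => by
    simp only [update_of_ne (Ne.symm hbc), update_of_ne (Ne.symm hbd),
      val_anti b R (by omega), mul_neg])
  have e2 := elimA c d hcd (val (vs (mp (update id b a) R))) (val_anti d _ (by omega))
  simp only [comp_apply, update_of_ne (Ne.symm hbc), update_of_ne (Ne.symm hbd), id,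
    ← val_mp] at e1 e2
  have e3 : ∑ x : α → G8, val (vs R) x * (fa (x a) (x b) * fa (x c) (x d)) =
      ∑ x : α → G8, fa (x a) (x b) * (fa (x c) (x d) * val (vs R) x) :=
    Finset.sum_congr rfl (fun x _ => by ring)
  rw [e3]
  change 9 ∣ ∑ x : α → G8, val (vs (mp (update id d c) (mp (update id b a) R))) x at h5
  omega

end Pool.Agent.Lib.P41
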