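import Pool.Agent.Lib.P41.Model

set_option autoImplicit false

namespace Pool.Agent.Lib.P41

open Pool.Agent.Lib.MP_daa8b9_co Function Module

variable {E V : Type} [Fintype E] [DecidableEq E] [Fintype V]
  {σ : Equiv.Perm (E × Bool)} {φ : V × Fin 3 ≃ E × Bool}

omit [Fintype E] [DecidableEq E] in
lemma const_of_conn {K : Type} (hc : Connected σ) (g : E × Bool → K) (h1 : ∀ a, g (σ a) = g a)
    (h2 : ∀ e, g (e, false) = g (e, true)) (a b : E × Bool) : g a = g b := by
  have h := (Nat.card_eq_one_iff_unique.1 hc).1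
  have h3 : ∀ a b, (b = σ a ∨ b = opp a) → g a = g b := by
    rintro ⟨e, c⟩ b (rfl | rfl)
    · exact (h1 _).symm
    · cases c
      · exact h2 e
      · exact (h2 e).symm
  exact congrArg (Quot.lift g h3) (h.elim (Quot.mk _ a) (Quot.mk _ b))

lemma finrank_const {A : Type} [Fintype A] (S : Submodule (ZMod 2) (A → ZMod 2))
    (h : ∀ g ∈ S, ∀ a b, g a = g b) : finrank (ZMod 2) S ≤ 1 := by
  have h1 : S ≤ Submodule.span (ZMod 2) {fun _ => 1} := by
    intro g hg
    rw [Submodule.mem_span_singleton]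
    rcases isEmpty_or_nonempty A with hA | ⟨⟨a⟩⟩
    · exact ⟨0, Subsingleton.elim _ _⟩
    · exact ⟨g a, funext fun b => by simp [h g hg a b]⟩
  exact (Submodule.finrank_mono h1).trans ((finrank_span_le_card _).trans (by simp))

omit [DecidableEq E] in
lemma card_vert (φ : V × Fin 3 ≃ E × Bool) : 3 * Fintype.card V = 2 * Fintype.card E := by
  have := Fintype.card_congr φ
  simp only [Fintype.card_prod, Fintype.card_fin, Fintype.card_bool] at this
  omega

omit [DecidableEq E] in
lemma classes_vert (hc : Cubic σ) (φ : V × Fin 3 ≃ E × Bool) :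
    classes (fun a b => b = σ a) = Fintype.card V := by
  classical
  obtain ⟨ψ, -⟩ := exists_pres σ hc
  have := Fintype.ofFinite (Quot (fun a b => b = σ a))
  have h1 := card_vert φ
  have h2 := card_vert ψ
  rw [classes, Nat.card_eq_fintype_card]
  omega

/-- On the sphere every cycle is a boundary. -/
lemma bdry (h3 : Cubic σ) (hc : Connected σ) (hp : Plane σ) (h : Pres σ φ) (z : E → ZMod 2)
    (hz : ∀ v, z (φ (v, 0)).1 + z (φ (v, 1)).1 + z (φ (v, 2)).1 = 0) :
    ∃ g : E × Bool → ZMod 2, (∀ d, g (σ.symm d) = g (opp d)) ∧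
      ∀ e, g (e, false) + g (e, true) = z e := by
  classical
  let r := fun a b : E × Bool => σ b = opp a
  have := Fintype.ofFinite (Quot r)
  have hr : ∀ d, Quot.mk r (σ.symm d) = Quot.mk r (opp d) := fun d =>
    (Quot.sound (by simp [r, opp])).symm
  let B : (Quot r → ZMod 2) →ₗ[ZMod 2] (E → ZMod 2) :=
    { toFun := fun g e => g (Quot.mk r (e, false)) + g (Quot.mk r (e, true))
      map_add' := fun g g' => funext fun e => by simp only [Pi.add_apply]; ring
      map_smul' := fun c g => funext fun e => by simp [mul_add] }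
  let M : Matrix V E (ZMod 2) := fun v e => ∑ i, if (φ (v, i)).1 = e then 1 else 0
  have hM : ∀ z v, M.mulVecLin z v = z (φ (v, 0)).1 + z (φ (v, 1)).1 + z (φ (v, 2)).1 := by
    intro z v
    simp only [M, Matrix.mulVecLin_apply, Matrix.mulVec, dotProduct, Fin.sum_univ_three, add_mul,
      Finset.sum_add_distrib, ite_mul, one_mul, zero_mul, Finset.sum_ite_eq, Finset.mem_univ,
      if_true]
  have hT : ∀ g e, M.transpose.mulVecLin g e =
      g (φ.symm (e, false)).1 + g (φ.symm (e, true)).1 := by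
    intro g e
    have : ∑ p : V × Fin 3, (if (φ p).1 = e then 1 else 0) * g p.1 =
        ∑ d : E × Bool, (if d.1 = e then 1 else 0) * g (φ.symm d).1 := by
      rw [← φ.sum_comp]; simp
    simp only [Fintype.sum_prod_type] at this
    simp only [M, Matrix.mulVecLin_apply, Matrix.mulVec, dotProduct, Matrix.transpose_apply,
      Finset.sum_mul, this]
    simp [add_comm, Finset.sum_add_distrib]
  have two : ∀ a b : ZMod 2, a + b = 0 → a = b := by decide
  have hB : ∀ g d, B g d.1 = g (Quot.mk r (σ.symm d)) + g (Quot.mk r d) := by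
    rintro g ⟨e, c⟩
    rw [hr]
    cases c
    · exact add_comm _ _
    · rfl
  have h1 : LinearMap.range B ≤ LinearMap.ker M.mulVecLin := by
    rintro _ ⟨g, rfl⟩
    funext v
    have e0 : σ.symm (φ (v, 0)) = φ (v, 2) := σ.symm_apply_eq.2 (h v 2)
    have e1 : σ.symm (φ (v, 1)) = φ (v, 0) := σ.symm_apply_eq.2 (h v 0)
    have e2 : σ.symm (φ (v, 2)) = φ (v, 1) := σ.symm_apply_eq.2 (h v 1)
    rw [hM, hB, hB, hB, e0, e1, e2]
    exact (by decide : ∀ a b c : ZMod 2, c + a + (a + b) + (b + c) = 0) _ _ _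
  have h2 := finrank_const (LinearMap.ker B) (fun g hg a b => by
    induction a using Quot.ind
    induction b using Quot.ind
    refine const_of_conn hc (fun d => g (Quot.mk r d)) (fun d => ?_)
      (fun e => two _ _ (congrFun hg e)) _ _
    have := (hB g (σ d)).symm.trans (congrFun hg _)
    rw [Equiv.symm_apply_apply] at this
    exact (two _ _ this).symm)
  have h4 := finrank_const (LinearMap.ker M.transpose.mulVecLin) (fun g hg a b => by
    have := const_of_conn hc (fun d => g (φ.symm d).1) (fun d => by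
      obtain ⟨⟨v, i⟩, rfl⟩ := φ.surjective d
      rw [← h]; simp) (fun e => two _ _ ((hT g e).symm.trans (congrFun hg e))) (φ (a, 0)) (φ (b, 0))
    simpa using this)
  have h5 := LinearMap.finrank_range_add_finrank_ker B
  have h6 := LinearMap.finrank_range_add_finrank_ker M.mulVecLin
  have h7 := LinearMap.finrank_range_add_finrank_ker M.transpose.mulVecLin
  have h8 : finrank (ZMod 2) (LinearMap.range M.transpose.mulVecLin) =
      finrank (ZMod 2) (LinearMap.range M.mulVecLin) := Matrix.rank_transpose M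
  rw [finrank_fintype_fun_eq_card] at h5 h6 h7
  rw [Plane, classes_vert h3 φ, classes, Nat.card_eq_fintype_card] at hp
  have h9 := Submodule.eq_of_le_of_finrank_le h1 (by
    change _ + Fintype.card (Quot r) = _ at hp; omega)
  have h10 : z ∈ LinearMap.range B := by
    rw [h9]; funext v; rw [hM]; exact hz v
  obtain ⟨g, rfl⟩ := h10
  exact ⟨fun d => g (Quot.mk r d), fun d => congrArg g (hr d), fun e => rfl⟩

def eps (a b c : Fin 3) : ℤ := dist3 a b c * (if b = a + 1 then 1 else -1)

def kap (c : Fin 3) : ZMod 2 × ZMod 2 := ![(1, 0), (0, 1), (1, 1)] c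

def Om (x y : ZMod 2 × ZMod 2) : ℤ :=
  (([[0, 1, 1, 1], [-1, 0, 1, -1], [-1, -1, 0, 1], [-1, 1, -1, 0]] : List (List ℤ)).getD
    (x.1.val + 2 * x.2.val) []).getD (y.1.val + 2 * y.2.val) 0

/-- Penrose's sign theorem. -/
lemma ZM_eps (h3 : Cubic σ) (hc : Connected σ) (hp : Plane σ) (h : Pres σ φ) :
    ZM φ id eps = (-1) ^ Fintype.card E * ZM φ id dist3 := by
  rw [ZM, ZM, Finset.mul_sum]
  refine Finset.sum_congr rfl (fun c _ => ?_)
  by_cases hd : ∀ d : E × Bool, c d.1 ≠ c (σ d).1
  swap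
  · have := vw_dist3 h c
    rw [ind_neg hd] at this
    rw [this, mul_zero]
    simp only [vw, eps, Finset.prod_mul_distrib] at this ⊢
    rw [this, zero_mul]
  rw [vw_dist3 h, ind_pos hd, mul_one]
  have hk : ∀ v, kap (c (φ (v, 0)).1) + kap (c (φ (v, 1)).1) + kap (c (φ (v, 2)).1) = 0 := by
    intro v
    have h0 := hd (φ (v, 0))
    have h1 := hd (φ (v, 1))
    have h2 := hd (φ (v, 2))
    rw [← h] at h0 h1 h2
    exact (by decide : ∀ a b c : Fin 3, a ≠ b → b ≠ c → c ≠ a → kap a + kap b + kap c = 0)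
      _ _ _ h0 h1 h2
  obtain ⟨g1, a1, b1⟩ := bdry h3 hc hp h (fun e => (kap (c e)).1)
    (fun v => congrArg Prod.fst (hk v))
  obtain ⟨g2, a2, b2⟩ := bdry h3 hc hp h (fun e => (kap (c e)).2)
    (fun v => congrArg Prod.snd (hk v))
  let g : E × Bool → ZMod 2 × ZMod 2 := fun d => (g1 d, g2 d)
  have a : ∀ d, g (σ.symm d) = g (opp d) := fun d => Prod.ext (a1 d) (a2 d)
  have b : ∀ e, g (e, false) + g (e, true) = kap (c e) := fun e => Prod.ext (b1 e) (b2 e)
  have b' : ∀ d, g d + g (σ d) = kap (c (σ d).1) := fun d => by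
    have := a (σ d)
    rw [Equiv.symm_apply_apply] at this
    rw [this, ← b]
    generalize σ d = d'
    obtain ⟨e, x⟩ := d'
    cases x
    · exact add_comm _ _
    · rfl
  have e1 := h.prod (fun a b => Om (g a) (g b))
  have e2 : ∏ d, Om (g d) (g (σ d)) = (-1) ^ Fintype.card E := by
    rw [← σ.symm.prod_comp]
    simp only [Equiv.apply_symm_apply, a]
    rw [prod_edge, ← Finset.card_univ, ← Finset.prod_const]
    exact Finset.prod_congr rfl (fun e _ => (by decide : ∀ (x y : ZMod 2 × ZMod 2) (c : Fin 3),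
      x + y = kap c → Om y x * Om x y = -1) _ _ _ (b e))
  rw [← e2, e1, vw]
  refine Finset.prod_congr rfl (fun v _ => ?_)
  have h0 := b' (φ (v, 0))
  have h1 := b' (φ (v, 1))
  have h2 := b' (φ (v, 2))
  rw [← h] at h0 h1 h2
  simp only [dv_id]
  exact (by decide +kernel : ∀ (x y z : ZMod 2 × ZMod 2) (a b c : Fin 3), x + y = kap b →
    y + z = kap c → z + x = kap a → eps a b c = Om x y * Om y z * Om z x) _ _ _ _ _ _ h0 h1 h2

def gm (m x : ℤ) : ℤ := if m = 0 then 0 else m * x

lemma gm_eq (m x : ℤ) : gm m x = m * x := by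
  unfold gm; split_ifs with h <;> simp [*]

lemma ZM_three (φ : V × Fin 3 ≃ E × Bool) :
    ZM φ id (fv (K := Fin 3)) = 2 ^ Fintype.card E * ZM φ id eps := by
  refine ZM_change' φ fv eps (fun a p => eps a.1 a.2 p) 2 ?_ (by decide +kernel)
  simp only [← gm_eq]
  decide +kernel

def M4 (a : Fin 4 × Fin 4) (p : Fin 3 × Bool) : ℤ :=
  if a.1 = a.2 then 0 else if a.1 = 3 then cond p.2 1 (-1) * dd a.2 p.1.castSucc
  else if a.2 = 3 then cond p.2 (-1) 1 * dd a.1 p.1.castSucc
  else if a.1 = p.1.castSucc ∨ a.2 = p.1.castSucc then 0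
  else if a.2.val = (a.1.val + 1) % 3 then 1 else -1

lemma ZM_four (φ : V × Fin 3 ≃ E × Bool) :
    2 ^ Fintype.card V * ZM φ id (fv (K := Fin 4)) =
      4 ^ Fintype.card E * (ZM φ id eps * ZM φ id (allq (K := Bool))) := by
  have h := ZM_change' φ (fun a b c : Fin 4 × Fin 4 => 2 * fv a b c)
    (fun p q r : Fin 3 × Bool => eps p.1 q.1 r.1 * allq p.2 q.2 r.2) M4 4 (by
      simp only [← gm_eq (M4 _ _)]
      decide +kernel) (by decide +kernel)
  convert h using 1
  · simp only [ZM, vw, Finset.prod_mul_distrib, Finset.prod_const, Finset.card_univ,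
      Finset.mul_sum]
  · congr 1
    simp only [ZM, vw, dv_id, Finset.prod_mul_distrib]
    rw [Finset.sum_mul_sum, ← Fintype.sum_prod_type',
      ← (Equiv.arrowProdEquivProdArrow E (fun _ => Fin 3) (fun _ => Bool)).sum_comp]
    rfl

end Pool.Agent.Lib.P41
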